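import Mathlib

/-!
Two catalysts in one region, and a system of purely catalytic rules simulating a reader machine.
-/

set_option autoImplicit false

namespace Pool.Agent.W806.PC

/-! ### Two hands -/

section Hands

variable {O : Type} (RA RB : O → Multiset O → ℕ → Prop)

/-- one step of a region with two catalysts: each catalyst serves one object or is idle, the latter
only if no free object can be served by it; the number counts the objects sent out -/
inductive MStep : Multiset O × ℕ → Multiset O × ℕ → Prop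
  | both {a b : O} {R v w : Multiset O} {k i j : ℕ} : RA a v i → RB b w j →
      MStep (a ::ₘ b ::ₘ R, k) (v + w + R, k + i + j)
  | fst {a : O} {R v : Multiset O} {k i : ℕ} : RA a v i → (∀ o ∈ R, ∀ w j, ¬ RB o w j) →
      MStep (a ::ₘ R, k) (v + R, k + i)
  | snd {b : O} {R w : Multiset O} {k j : ℕ} : RB b w j → (∀ o ∈ R, ∀ v i, ¬ RA o v i) →
      MStep (b ::ₘ R, k) (w + R, k + j)

/-- nothing can happen -/
def MHalt (M : Multiset O) : Prop := ∀ o ∈ M, ∀ v i, ¬ RA o v i ∧ ¬ RB o v i

end Hands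

/-! ### Objects -/

/-- objects other than the control object and the trap object -/
inductive Nc
  | x | q | y | x1 | q1 | q2 | q3 | r1 | r2 | r3 | r4 | y1 | y2 | y3
  | z1 | z2 | z3 | z4 | a1 | a2 | a3 | a4 | g
  deriving DecidableEq

/-- kinds of control objects -/
inductive Ct
  | rd | cD | d | e | f | w4 | w3 | w2 | w1 | w | h | h3 | h2 | h1 | v1 | v2 | v3 | v4 | v5 | v6
  deriving DecidableEq

/-- units -/
def isU : Nc → Bool
  | .x => true
  | .q => true
  | .y => true
  | _ => false

/-- what the first catalyst makes of an object -/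
def lA : Nc → Option (Option Nc)
  | .x => some (some .x1)
  | .x1 => some none
  | .q => some (some .q1)
  | .q1 => some (some .q2)
  | .q2 => some (some .q3)
  | .q3 => some (some .r1)
  | .z1 => some (some .z2)
  | .z2 => some (some .z3)
  | .z3 => some (some .z4)
  | .z4 => some (some .x)
  | .a4 => some (some .a3)
  | .a3 => some (some .a2)
  | .a2 => some (some .a1)
  | .a1 => some none
  | _ => none

/-- what the second catalyst makes of an object -/
def lB : Nc → Option (Option Nc)
  | .r1 => some (some .r2)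
  | .r2 => some (some .r3)
  | .r3 => some (some .r4)
  | .r4 => some (some .y)
  | .y => some (some .y1)
  | .y1 => some (some .y2)
  | .y2 => some (some .y3)
  | .y3 => some (some .z1)
  | .g => some none
  | _ => none

/-- the multiset of at most one object -/
def pm : Option Nc → Multiset Nc
  | none => 0
  | some a => {a}

/-- control objects served by the first catalyst -/
def isA : Ct → Bool
  | .rd => true
  | .e => true
  | .f => true
  | .v1 => true
  | .v2 => true
  | .v3 => true
  | .v4 => true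
  | .v5 => true
  | .v6 => true
  | _ => false

/-- a reader machine: reads its input unit by unit, writes `kk s` units for each unit read in state
`s`; at the end of the input it outputs `out s` units, what was written becomes the new input, and
it goes to a state allowed by `nx` or accepts -/
structure Prog (S : Type) where
  start : S
  x0 : ℕ
  kk : S → ℕ
  dl : S → S
  out : S → ℕ
  nx : S → S → Prop
  acc : S → Prop

/-- moves of the control object -/
inductive CT {S : Type} (P : Prog S) : Ct → S → Option (Ct × S) → Multiset Nc → ℕ → Prop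
  | rdc (s : S) : CT P .rd s (some (.cD, s)) 0 0
  | rdw (s : S) : CT P .rd s (some (.w4, s)) {.a4} 0
  | cD (s : S) : CT P .cD s (some (.d, s)) {.g} 0
  | d (s : S) : CT P .d s (some (.e, s)) 0 0
  | e (s : S) : CT P .e s (some (.f, s)) 0 0
  | f (s : S) : CT P .f s (some (.rd, P.dl s)) (Multiset.replicate (P.kk s) .q) 0
  | w4 (s : S) : CT P .w4 s (some (.w3, s)) 0 0
  | w3 (s : S) : CT P .w3 s (some (.w2, s)) 0 0
  | w2 (s : S) : CT P .w2 s (some (.w1, s)) 0 0
  | w1 (s : S) : CT P .w1 s (some (.w, s)) 0 0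
  | w (s : S) : CT P .w s (some (.h, s)) {.a4} 0
  | h (s : S) : CT P .h s (some (.h3, s)) 0 0
  | h3 (s : S) : CT P .h3 s (some (.h2, s)) 0 0
  | h2 (s : S) : CT P .h2 s (some (.h1, s)) 0 0
  | h1 (s : S) : CT P .h1 s (some (.v1, s)) 0 0
  | v1 (s : S) : CT P .v1 s (some (.v2, s)) 0 0
  | v2 (s : S) : CT P .v2 s (some (.v3, s)) 0 0
  | v3 (s : S) : CT P .v3 s (some (.v4, s)) 0 0
  | v4 (s : S) : CT P .v4 s (some (.v5, s)) 0 0
  | v5 (s : S) : CT P .v5 s (some (.v6, s)) 0 0
  | v6 (s s' : S) : P.nx s s' → CT P .v6 s (some (.rd, s')) 0 (P.out s)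
  | acc (s : S) : P.acc s → CT P .v6 s none 0 (P.out s)

/-- objects of the system (apart from the catalysts and the output object) -/
inductive Ob (S : Type)
  | trap
  | n (a : Nc)
  | c (k : Ct) (s : S)

variable {S : Type} (P : Prog S)

/-- the control part of a configuration -/
def ctm : Option (Ct × S) → Multiset (Ob S)
  | none => 0
  | some (k, s) => {.c k s}

/-- rules of the first catalyst -/
def RA : Ob S → Multiset (Ob S) → ℕ → Prop
  | .trap, v, i => v = {.trap} ∧ i = 0
  | .n a, v, i => ((∃ p, lA a = some p ∧ v = (pm p).map .n) ∨ (isU a = false ∧ v = {.trap})) ∧ i = 0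
  | .c k s, v, i => (v = {.trap} ∧ i = 0) ∨
      (isA k = true ∧ ∃ c' ex, CT P k s c' ex i ∧ v = ctm c' + ex.map .n)

/-- rules of the second catalyst -/
def RB : Ob S → Multiset (Ob S) → ℕ → Prop
  | .trap, v, i => v = {.trap} ∧ i = 0
  | .n a, v, i => ((∃ p, lB a = some p ∧ v = (pm p).map .n) ∨ (isU a = false ∧ v = {.trap})) ∧ i = 0
  | .c k s, v, i => (v = {.trap} ∧ i = 0) ∨
      (isA k = false ∧ ∃ c' ex, CT P k s c' ex i ∧ v = ctm c' + ex.map .n)

/-- configurations without trap object: control object, other objects, output -/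
abbrev Conf (S : Type) := Option (Ct × S) × Multiset Nc × ℕ

/-- the corresponding multiset -/
def toM (C : Conf S) : Multiset (Ob S) × ℕ := (ctm C.1 + C.2.1.map .n, C.2.2)

/-- steps that do not produce the trap object -/
inductive SStep : Conf S → Conf S → Prop
  | cb {k : Ct} {s : S} {c' : Option (Ct × S)} {ex : Multiset Nc} {i : ℕ} {b : Nc}
      {p : Option Nc} {R : Multiset Nc} {n : ℕ} : isA k = true → CT P k s c' ex i → lB b = some p →
      SStep (some (k, s), b ::ₘ R, n) (c', ex + pm p + R, n + i)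
  | ci {k : Ct} {s : S} {c' : Option (Ct × S)} {ex : Multiset Nc} {i : ℕ} {E : Multiset Nc} {n : ℕ} :
      isA k = true → CT P k s c' ex i → (∀ o ∈ E, o = .x ∨ o = .q) →
      SStep (some (k, s), E, n) (c', ex + E, n + i)
  | ca {k : Ct} {s : S} {c' : Option (Ct × S)} {ex : Multiset Nc} {i : ℕ} {a : Nc}
      {p : Option Nc} {R : Multiset Nc} {n : ℕ} : isA k = false → CT P k s c' ex i → lA a = some p →
      SStep (some (k, s), a ::ₘ R, n) (c', ex + pm p + R, n + i)
  | cj {k : Ct} {s : S} {c' : Option (Ct × S)} {ex : Multiset Nc} {i : ℕ} {E : Multiset Nc} {n : ℕ} :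
      isA k = false → CT P k s c' ex i → (∀ o ∈ E, o = .y) →
      SStep (some (k, s), E, n) (c', ex + E, n + i)
  | ee {c : Option (Ct × S)} {a b : Nc} {p r : Option Nc} {R : Multiset Nc} {n : ℕ} :
      lA a = some p → lB b = some r → SStep (c, a ::ₘ b ::ₘ R, n) (c, pm p + pm r + R, n)
  | na {a : Nc} {p : Option Nc} {R : Multiset Nc} {n : ℕ} :
      lA a = some p → (∀ o ∈ R, o = .x ∨ o = .q) → SStep (none, a ::ₘ R, n) (none, pm p + R, n)
  | nb {b : Nc} {p : Option Nc} {R : Multiset Nc} {n : ℕ} :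
      lB b = some p → (∀ o ∈ R, o = .y) → SStep (none, b ::ₘ R, n) (none, pm p + R, n)

/-! ### The two semantics agree -/

theorem noB_iff (a : Nc) : (∀ w j, ¬ RB P (.n a) w j) ↔ (a = .x ∨ a = .q) := by
  constructor
  · intro h
    cases hU : isU a with
    | false => exact absurd ⟨Or.inr ⟨hU, rfl⟩, rfl⟩ (h {.trap} 0)
    | true =>
      cases a <;> first | simp [isU] at hU; done | simp
      exact absurd ⟨Or.inl ⟨_, rfl, rfl⟩, rfl⟩ (h _ 0)
  · rintro (rfl | rfl) w j h <;> simp [RB, lB, isU] at h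

theorem noA_iff (a : Nc) : (∀ w j, ¬ RA P (.n a) w j) ↔ a = .y := by
  constructor
  · intro h
    cases hU : isU a with
    | false => exact absurd ⟨Or.inr ⟨hU, rfl⟩, rfl⟩ (h {.trap} 0)
    | true =>
      cases a <;> first | (simp [isU] at hU; done) | rfl |
        exact absurd ⟨Or.inl ⟨_, rfl, rfl⟩, rfl⟩ (h _ 0)
  · rintro rfl w j h; simp [RA, lA, isU] at h

theorem RA_c (k : Ct) (s : S) : RA P (.c k s) {.trap} 0 := Or.inl ⟨rfl, rfl⟩
theorem RB_c (k : Ct) (s : S) : RB P (.c k s) {.trap} 0 := Or.inl ⟨rfl, rfl⟩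

theorem toM_some (k : Ct) (s : S) (E : Multiset Nc) (n : ℕ) :
    toM (some (k, s), E, n) = (.c k s ::ₘ E.map .n, n) := by
  simp [toM, ctm, Multiset.singleton_add]

theorem toM_none (E : Multiset Nc) (n : ℕ) :
    toM ((none : Option (Ct × S)), E, n) = (E.map .n, n) := by
  simp [toM, ctm]

theorem sstep_mstep {C D : Conf S} (h : SStep P C D) : MStep (RA P) (RB P) (toM C) (toM D) := by
  cases h with
  | @cb k s c' ex i b p R n hk hc hb =>
    rw [toM_some, Multiset.map_cons]
    have := MStep.both (RA := RA P) (RB := RB P) (a := .c k s) (b := .n b) (R := R.map .n)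
      (v := ctm c' + ex.map .n) (w := (pm p).map .n) (k := n) (i := i) (j := 0)
      (Or.inr ⟨hk, c', ex, hc, rfl⟩) ⟨Or.inl ⟨p, hb, rfl⟩, rfl⟩
    convert this using 1
    simp only [toM, Multiset.map_add, Prod.mk.injEq]
    exact ⟨by abel, by omega⟩
  | @ci k s c' ex i E n hk hc hE =>
    rw [toM_some]
    have := MStep.fst (RA := RA P) (RB := RB P) (a := .c k s) (R := E.map .n)
      (v := ctm c' + ex.map .n) (k := n) (i := i) (Or.inr ⟨hk, c', ex, hc, rfl⟩) (by
        intro o ho
        obtain ⟨a, ha, rfl⟩ := Multiset.mem_map.1 ho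
        exact (noB_iff P a).2 (hE a ha))
    convert this using 1
    simp only [toM, Multiset.map_add, Prod.mk.injEq]
    exact ⟨by abel, trivial⟩
  | @ca k s c' ex i a p R n hk hc ha =>
    rw [toM_some, Multiset.map_cons, Multiset.cons_swap]
    have := MStep.both (RA := RA P) (RB := RB P) (a := .n a) (b := .c k s) (R := R.map .n)
      (v := (pm p).map .n) (w := ctm c' + ex.map .n) (k := n) (i := 0) (j := i)
      ⟨Or.inl ⟨p, ha, rfl⟩, rfl⟩ (Or.inr ⟨hk, c', ex, hc, rfl⟩)
    convert this using 1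
    simp only [toM, Multiset.map_add, Prod.mk.injEq]
    exact ⟨by abel, by omega⟩
  | @cj k s c' ex i E n hk hc hE =>
    rw [toM_some]
    have := MStep.snd (RA := RA P) (RB := RB P) (b := .c k s) (R := E.map .n)
      (w := ctm c' + ex.map .n) (k := n) (j := i) (Or.inr ⟨hk, c', ex, hc, rfl⟩) (by
        intro o ho
        obtain ⟨a, ha, rfl⟩ := Multiset.mem_map.1 ho
        exact (noA_iff P a).2 (hE a ha))
    convert this using 1
    simp only [toM, Multiset.map_add, Prod.mk.injEq]
    exact ⟨by abel, trivial⟩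
  | @ee c a b p r R n ha hb =>
    have := MStep.both (RA := RA P) (RB := RB P) (a := .n a) (b := .n b) (R := ctm c + R.map .n)
      (v := (pm p).map .n) (w := (pm r).map .n) (k := n) (i := 0) (j := 0)
      ⟨Or.inl ⟨p, ha, rfl⟩, rfl⟩ ⟨Or.inl ⟨r, hb, rfl⟩, rfl⟩
    convert this using 1
    · simp only [toM, Multiset.map_cons, Prod.mk.injEq, and_true]
      rw [Multiset.add_cons, Multiset.add_cons]
    · simp only [toM, Multiset.map_add, Prod.mk.injEq]
      exact ⟨by abel, by omega⟩
  | @na a p R n ha hR =>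
    rw [toM_none, Multiset.map_cons]
    have := MStep.fst (RA := RA P) (RB := RB P) (a := .n a) (R := R.map .n)
      (v := (pm p).map .n) (k := n) (i := 0) ⟨Or.inl ⟨p, ha, rfl⟩, rfl⟩ (by
        intro o ho
        obtain ⟨a, ha, rfl⟩ := Multiset.mem_map.1 ho
        exact (noB_iff P a).2 (hR a ha))
    convert this using 1
    rw [toM_none, Multiset.map_add]; rfl
  | @nb b p R n hb hR =>
    rw [toM_none, Multiset.map_cons]
    have := MStep.snd (RA := RA P) (RB := RB P) (b := .n b) (R := R.map .n)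
      (w := (pm p).map .n) (k := n) (j := 0) ⟨Or.inl ⟨p, hb, rfl⟩, rfl⟩ (by
        intro o ho
        obtain ⟨a, ha, rfl⟩ := Multiset.mem_map.1 ho
        exact (noA_iff P a).2 (hR a ha))
    convert this using 1
    rw [toM_none, Multiset.map_add]; rfl

theorem map_n_eq_cons {E : Multiset Nc} {b : Ob S} {R : Multiset (Ob S)}
    (h : E.map Ob.n = b ::ₘ R) : ∃ b' R', b = .n b' ∧ E = b' ::ₘ R' ∧ R = R'.map .n := by
  obtain ⟨a, ha, h1, h2⟩ := Multiset.map_eq_cons _ _ _ _ |>.2 h
  exact ⟨a, E.erase a, h1.symm, (Multiset.cons_erase ha).symm, h2.symm⟩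

theorem some_eq_cons {k : Ct} {s : S} {E : Multiset Nc} {a : Ob S} {R : Multiset (Ob S)}
    (h : Ob.c k s ::ₘ E.map Ob.n = a ::ₘ R) :
    (a = .c k s ∧ R = E.map .n) ∨
      ∃ a' E', a = .n a' ∧ E = a' ::ₘ E' ∧ R = .c k s ::ₘ E'.map .n := by
  classical
  rcases Multiset.cons_eq_cons.1 h with ⟨h1, h2⟩ | ⟨h1, cs, h2, h3⟩
  · exact Or.inl ⟨h1.symm, h2.symm⟩
  · obtain ⟨a', R', h4, h5, h6⟩ := map_n_eq_cons h2
    exact Or.inr ⟨a', R', h4, h5, by rw [h3, h6]⟩

theorem mstep_sstep {C : Conf S} {X : Multiset (Ob S) × ℕ}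
    (h : MStep (RA P) (RB P) (toM C) X) : .trap ∈ X.1 ∨ ∃ D, X = toM D ∧ SStep P C D := by
  obtain ⟨c, E, n⟩ := C
  generalize hM : toM (c, E, n) = M at h
  cases h with
  | @both a b R v w m i j hA hB =>
    rcases c with _ | ⟨k, s⟩
    · rw [toM_none, Prod.mk.injEq] at hM
      obtain ⟨hM, rfl⟩ := hM
      obtain ⟨a', R', rfl, rfl, h2⟩ := map_n_eq_cons hM
      obtain ⟨b', R'', rfl, rfl, rfl⟩ := map_n_eq_cons h2.symm
      rcases hA with ⟨⟨p, hp, rfl⟩ | ⟨_, rfl⟩, rfl⟩
      swap; · left; simp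
      rcases hB with ⟨⟨r, hr, rfl⟩ | ⟨_, rfl⟩, rfl⟩
      swap; · left; simp
      right
      refine ⟨(none, pm p + pm r + R'', n), ?_, SStep.ee hp hr⟩
      rw [toM_none, Multiset.map_add, Multiset.map_add]; rfl
    · rw [toM_some, Prod.mk.injEq] at hM
      obtain ⟨hM, rfl⟩ := hM
      rcases some_eq_cons hM with ⟨rfl, h2⟩ | ⟨a', E', rfl, rfl, h2⟩
      · obtain ⟨b', R', rfl, rfl, rfl⟩ := map_n_eq_cons h2.symm
        rcases hA with ⟨rfl, rfl⟩ | ⟨hk, c', ex, hc, rfl⟩
        · left; simp
        rcases hB with ⟨⟨r, hr, rfl⟩ | ⟨_, rfl⟩, rfl⟩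
        swap; · left; simp
        right
        refine ⟨_, ?_, SStep.cb hk hc hr⟩
        simp only [toM, Multiset.map_add, Prod.mk.injEq]
        exact ⟨by abel, by omega⟩
      · rcases some_eq_cons h2.symm with ⟨rfl, rfl⟩ | ⟨b', E'', rfl, rfl, rfl⟩
        · rcases hA with ⟨⟨p, hp, rfl⟩ | ⟨_, rfl⟩, rfl⟩
          swap; · left; simp
          rcases hB with ⟨rfl, rfl⟩ | ⟨hk, c', ex, hc, rfl⟩
          · left; simp
          right
          refine ⟨_, ?_, SStep.ca hk hc hp⟩
          simp only [toM, Multiset.map_add, Prod.mk.injEq]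
          exact ⟨by abel, by omega⟩
        · rcases hA with ⟨⟨p, hp, rfl⟩ | ⟨_, rfl⟩, rfl⟩
          swap; · left; simp
          rcases hB with ⟨⟨r, hr, rfl⟩ | ⟨_, rfl⟩, rfl⟩
          swap; · left; simp
          right
          refine ⟨_, ?_, SStep.ee hp hr⟩
          simp only [toM, ctm, Multiset.map_add, Prod.mk.injEq]
          refine ⟨?_, by omega⟩
          rw [← Multiset.singleton_add]
          abel
  | @fst a R v m i hA hR =>
    rcases c with _ | ⟨k, s⟩
    · rw [toM_none, Prod.mk.injEq] at hM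
      obtain ⟨hM, rfl⟩ := hM
      obtain ⟨a', R', rfl, rfl, rfl⟩ := map_n_eq_cons hM
      rcases hA with ⟨⟨p, hp, rfl⟩ | ⟨_, rfl⟩, rfl⟩
      swap; · left; simp
      right
      refine ⟨_, ?_, SStep.na (n := n) hp (R := R') ?_⟩
      · rw [toM_none, Multiset.map_add]; rfl
      · intro o ho
        exact (noB_iff P o).1 (hR _ (Multiset.mem_map_of_mem _ ho))
    · rw [toM_some, Prod.mk.injEq] at hM
      obtain ⟨hM, rfl⟩ := hM
      rcases some_eq_cons hM with ⟨rfl, rfl⟩ | ⟨a', E', rfl, rfl, rfl⟩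
      · rcases hA with ⟨rfl, rfl⟩ | ⟨hk, c', ex, hc, rfl⟩
        · left; simp
        right
        refine ⟨_, ?_, SStep.ci hk hc ?_⟩
        · simp only [toM, Multiset.map_add, Prod.mk.injEq]
          exact ⟨by abel, trivial⟩
        · intro o ho
          exact (noB_iff P o).1 (hR _ (Multiset.mem_map_of_mem _ ho))
      · exact absurd (RB_c P k s) (hR _ (Multiset.mem_cons_self _ _) _ _)
  | @snd b R w m j hB hR =>
    rcases c with _ | ⟨k, s⟩
    · rw [toM_none, Prod.mk.injEq] at hM
      obtain ⟨hM, rfl⟩ := hM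
      obtain ⟨b', R', rfl, rfl, rfl⟩ := map_n_eq_cons hM
      rcases hB with ⟨⟨p, hp, rfl⟩ | ⟨_, rfl⟩, rfl⟩
      swap; · left; simp
      right
      refine ⟨_, ?_, SStep.nb (n := n) hp (R := R') ?_⟩
      · rw [toM_none, Multiset.map_add]; rfl
      · intro o ho
        exact (noA_iff P o).1 (hR _ (Multiset.mem_map_of_mem _ ho))
    · rw [toM_some, Prod.mk.injEq] at hM
      obtain ⟨hM, rfl⟩ := hM
      rcases some_eq_cons hM with ⟨rfl, rfl⟩ | ⟨a', E', rfl, rfl, rfl⟩
      · rcases hB with ⟨rfl, rfl⟩ | ⟨hk, c', ex, hc, rfl⟩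
        · left; simp
        right
        refine ⟨_, ?_, SStep.cj hk hc ?_⟩
        · simp only [toM, Multiset.map_add, Prod.mk.injEq]
          exact ⟨by abel, trivial⟩
        · intro o ho
          exact (noA_iff P o).1 (hR _ (Multiset.mem_map_of_mem _ ho))
      · exact absurd (RA_c P k s) (hR _ (Multiset.mem_cons_self _ _) _ _)

theorem trap_step {X Y : Multiset (Ob S) × ℕ} (h : MStep (RA P) (RB P) X Y)
    (ht : Ob.trap ∈ X.1) : Ob.trap ∈ Y.1 := by
  cases h with
  | @both a b R v w m i j hA hB =>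
    simp only [Multiset.mem_cons] at ht
    simp only [Multiset.mem_add]
    rcases ht with rfl | rfl | ht
    · rw [hA.1]; simp
    · rw [hB.1]; simp
    · exact Or.inr ht
  | @fst a R v m i hA hR =>
    simp only [Multiset.mem_cons] at ht
    simp only [Multiset.mem_add]
    rcases ht with rfl | ht
    · rw [hA.1]; simp
    · exact Or.inr ht
  | @snd b R w m j hB hR =>
    simp only [Multiset.mem_cons] at ht
    simp only [Multiset.mem_add]
    rcases ht with rfl | ht
    · rw [hB.1]; simp
    · exact Or.inr ht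

theorem halt_iff (C : Conf S) : MHalt (RA P) (RB P) (toM C).1 ↔ C.1 = none ∧ C.2.1 = 0 := by
  obtain ⟨c, E, n⟩ := C
  constructor
  · intro h
    have hc : c = none := by
      rcases c with _ | ⟨k, s⟩
      · rfl
      · exfalso
        rw [toM_some] at h
        exact (h _ (Multiset.mem_cons_self _ _) _ _).1 (RA_c P k s)
    subst hc
    refine ⟨rfl, ?_⟩
    rw [toM_none] at h
    refine Multiset.eq_zero_of_forall_notMem fun o ho => ?_
    have h1 := h _ (Multiset.mem_map_of_mem _ ho)
    have h2 := (noA_iff P o).1 fun w j => (h1 w j).1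
    have h3 := (noB_iff P o).1 fun w j => (h1 w j).2
    subst h2
    rcases h3 with h3 | h3 <;> cases h3
  · rintro ⟨h1, h2⟩
    simp only at h1 h2
    subst h1; subst h2
    rw [toM_none]
    intro o ho
    simp at ho

theorem trap_not_halt {M : Multiset (Ob S)} (h : Ob.trap ∈ M) : ¬ MHalt (RA P) (RB P) M :=
  fun hh => (hh _ h {.trap} 0).1 ⟨rfl, rfl⟩

end Pool.Agent.W806.PC
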