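import Mathlib
import Pool.Agent.W806.PC.Core

/-!
Invariants of the runs of the purely catalytic system.
-/

set_option autoImplicit false

namespace Pool.Agent.W806.PC

variable {S : Type} (P : Prog S)

/-- sum of a weight over a multiset -/
def sm (f : Nc → ℤ) (E : Multiset Nc) : ℤ := (E.map f).sum

@[simp] theorem sm_zero (f : Nc → ℤ) : sm f 0 = 0 := rfl
@[simp] theorem sm_cons (f : Nc → ℤ) (a : Nc) (E : Multiset Nc) : sm f (a ::ₘ E) = f a + sm f E := by
  simp [sm]
@[simp] theorem sm_add (f : Nc → ℤ) (E F : Multiset Nc) : sm f (E + F) = sm f E + sm f F := by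
  simp [sm]
@[simp] theorem sm_single (f : Nc → ℤ) (a : Nc) : sm f {a} = f a := by
  simp [sm]
@[simp] theorem sm_rep (f : Nc → ℤ) (k : ℕ) (a : Nc) : sm f (Multiset.replicate k a) = k * f a := by
  simp [sm]

theorem sm_nonneg {f : Nc → ℤ} (hf : ∀ a, 0 ≤ f a) (E : Multiset Nc) : 0 ≤ sm f E := by
  induction E using Multiset.induction_on with
  | empty => simp
  | cons a E ih => rw [sm_cons]; have := hf a; omega

theorem sm_eq_zero {f : Nc → ℤ} {E : Multiset Nc} (h : ∀ a ∈ E, f a = 0) : sm f E = 0 := by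
  induction E using Multiset.induction_on with
  | empty => simp
  | cons a E ih =>
    rw [sm_cons, h a (Multiset.mem_cons_self _ _), ih fun b hb => h b (Multiset.mem_cons_of_mem hb)]
    rfl

theorem le_sm {f : Nc → ℤ} (hf : ∀ a, 0 ≤ f a) {a : Nc} {E : Multiset Nc} (h : a ∈ E) :
    f a ≤ sm f E := by
  obtain ⟨R, rfl⟩ := Multiset.exists_cons_of_mem h
  rw [sm_cons]
  have := sm_nonneg hf R
  omega

/-- (work of the first catalyst) - (work of the second catalyst) still to be done on an object -/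
def wt : Nc → ℤ
  | .x => 0 | .q => 0 | .y => 0 | .x1 => 1 | .q1 => -1 | .q2 => -2 | .q3 => -3
  | .r1 => -4 | .r2 => -3 | .r3 => -2 | .r4 => -1 | .y1 => 1 | .y2 => 2 | .y3 => 3
  | .z1 => 4 | .z2 => 3 | .z3 => 2 | .z4 => 1 | .a1 => 1 | .a2 => 2 | .a3 => 3 | .a4 => 4
  | .g => -1

/-- thresholds -/
def th : Ct → ℤ
  | .rd => 5 | .cD => 6 | .d => 4 | .e => 3 | .f => 4 | .w4 => 10 | .w3 => 9 | .w2 => 8
  | .w1 => 7 | .w => 6 | .h => 9 | .h3 => 8 | .h2 => 7 | .h1 => 6 | .v1 => 5 | .v2 => 6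
  | .v3 => 7 | .v4 => 8 | .v5 => 9 | .v6 => 10

/-- number of units -/
def un : Nc → ℤ
  | .x => 1 | .q => 1 | .y => 1 | .x1 => 0 | .q1 => 1 | .q2 => 1 | .q3 => 1
  | .r1 => 1 | .r2 => 1 | .r3 => 1 | .r4 => 1 | .y1 => 1 | .y2 => 1 | .y3 => 1
  | .z1 => 1 | .z2 => 1 | .z3 => 1 | .z4 => 1 | .a1 => 0 | .a2 => 0 | .a3 => 0 | .a4 => 0
  | .g => 0

/-- units not yet converted -/
def qq : Nc → ℤ
  | .q => 1 | .q1 => 1 | .q2 => 1 | .q3 => 1 | .r1 => 1 | .r2 => 1 | .r3 => 1 | .r4 => 1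
  | _ => 0

/-- input units -/
def xx : Nc → ℤ
  | .x => 1 | _ => 0

/-- objects `g` -/
def gg : Nc → ℤ
  | .g => 1 | _ => 0

/-- work for the second catalyst -/
def bw : Nc → ℤ
  | .y => 1 | .r1 => 1 | .r2 => 1 | .r3 => 1 | .r4 => 1 | .y1 => 1 | .y2 => 1 | .y3 => 1
  | _ => 0

/-- work for the first catalyst -/
def rr : Nc → ℤ
  | .x1 => 1 | .q1 => 3 | .q2 => 2 | .q3 => 1
  | _ => 0

def i3 : Nc → ℤ
  | .q3 => 1 | _ => 0

def i2 : Nc → ℤ
  | .q2 => 1 | _ => 0

theorem xx_nonneg (a : Nc) : 0 ≤ xx a := by cases a <;> simp [xx]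
theorem qq_nonneg (a : Nc) : 0 ≤ qq a := by cases a <;> simp [qq]
theorem gg_nonneg (a : Nc) : 0 ≤ gg a := by cases a <;> simp [gg]
theorem bw_nonneg (a : Nc) : 0 ≤ bw a := by cases a <;> simp [bw]
theorem rr_nonneg (a : Nc) : 0 ≤ rr a := by cases a <;> simp [rr]
theorem i3_nonneg (a : Nc) : 0 ≤ i3 a := by cases a <;> simp [i3]
theorem i2_nonneg (a : Nc) : 0 ≤ i2 a := by cases a <;> simp [i2]
theorem un_nonneg (a : Nc) : 0 ≤ un a := by cases a <;> simp [un]

theorem wt_le (a : Nc) : wt a ≤ 4 := by cases a <;> simp [wt]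
theorem th_pos (k : Ct) : 3 ≤ th k := by cases k <;> simp [th]

theorem lA_wt {a : Nc} {p : Option Nc} (h : lA a = some p) : wt a - 1 ≤ sm wt (pm p) := by
  cases a <;> simp [lA] at h <;> subst h <;> simp [pm, wt]

theorem lB_wt {b : Nc} {p : Option Nc} (h : lB b = some p) : sm wt (pm p) = wt b + 1 := by
  cases b <;> simp [lB] at h <;> subst h <;> simp [pm, wt]

theorem wt_xq {E : Multiset Nc} (h : ∀ o ∈ E, o = .x ∨ o = .q) : sm wt E = 0 :=
  sm_eq_zero fun a ha => by rcases h a ha with rfl | rfl <;> rfl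

theorem wt_y {E : Multiset Nc} (h : ∀ o ∈ E, o = .y) : sm wt E = 0 :=
  sm_eq_zero fun a ha => by rw [h a ha]; rfl

/-- weight of a control move -/
theorem ct_A {k k' : Ct} {s s' : S} {ex : Multiset Nc} {i : ℕ} (hk : isA k = true)
    (h : CT P k s (some (k', s')) ex i) : th k' ≤ th k + 1 + sm wt ex := by
  cases h <;> simp [isA] at hk <;> simp [th, wt]

theorem ct_B {k k' : Ct} {s s' : S} {ex : Multiset Nc} {i : ℕ} (hk : isA k = false)
    (h : CT P k s (some (k', s')) ex i) : th k' = th k - 1 + sm wt ex := by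
  cases h <;> simp [isA] at hk <;> simp [th, wt]

theorem ct_none {k : Ct} {s : S} {ex : Multiset Nc} {i : ℕ}
    (h : CT P k s none ex i) : k = .v6 ∧ ex = 0 ∧ i = P.out s ∧ P.acc s := by
  cases h; exact ⟨rfl, rfl, rfl, by assumption⟩

/-! ### Hopeless configurations -/

/-- too much work for the first catalyst -/
def Bad (C : Conf S) : Prop :=
  match C.1 with
  | some (k, _) => th k ≤ sm wt C.2.1
  | none => 5 ≤ sm wt C.2.1

theorem bad_not_halt {C : Conf S} (h : Bad C) : ¬ (C.1 = none ∧ C.2.1 = 0) := by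
  rintro ⟨h1, h2⟩
  obtain ⟨c, E, n⟩ := C
  simp only at h1 h2
  subst h1; subst h2
  simp [Bad] at h

theorem bad_step {C D : Conf S} (h : SStep P C D) (hb : Bad C) : Bad D := by
  cases h with
  | @cb k s c' ex i b p R n hk hc hb' =>
    simp only [Bad, sm_cons] at hb
    have h1 := lB_wt hb'
    rcases c' with _ | ⟨k', s'⟩
    · obtain ⟨rfl, rfl, _⟩ := ct_none P hc
      simp only [Bad, sm_add, sm_zero, th] at hb ⊢
      omega
    · have h2 := ct_A P hk hc
      simp only [Bad, sm_add]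
      omega
  | @ci k s c' ex i E n hk hc hE =>
    simp only [Bad, wt_xq hE] at hb
    have := th_pos k
    omega
  | @ca k s c' ex i a p R n hk hc ha =>
    simp only [Bad, sm_cons] at hb
    have h1 := lA_wt ha
    rcases c' with _ | ⟨k', s'⟩
    · obtain ⟨rfl, _⟩ := ct_none P hc
      simp [isA] at hk
    · have h2 := ct_B P hk hc
      simp only [Bad, sm_add]
      omega
  | @cj k s c' ex i E n hk hc hE =>
    simp only [Bad, wt_y hE] at hb
    have := th_pos k
    omega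
  | @ee c a b p r R n ha hb' =>
    have h1 := lA_wt ha
    have h2 := lB_wt hb'
    rcases c with _ | ⟨k, s⟩ <;> simp only [Bad, sm_cons, sm_add] at hb ⊢ <;> omega
  | @na a p R n ha hR =>
    simp only [Bad, sm_cons, wt_xq hR] at hb
    have := wt_le a
    omega
  | @nb b p R n hb' hR =>
    simp only [Bad, sm_cons, wt_y hR] at hb
    have := wt_le b
    omega

/-- states of the final chain -/
def isV : Ct → Bool
  | .v1 => true
  | .v2 => true
  | .v3 => true
  | .v4 => true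
  | .v5 => true
  | .v6 => true
  | _ => false

/-- the final chain is entered although something is left -/
def Pre (C : Conf S) : Prop :=
  ∃ k s, C.1 = some (k, s) ∧ isV k = true ∧ sm gg C.2.1 = 0 ∧ (∃ o ∈ C.2.1, o ≠ .x ∧ o ≠ .q) ∧
    th k - 6 ≤ sm wt C.2.1

theorem lB_ne {b : Nc} {p : Option Nc} (h : lB b = some p) (hg : gg b = 0) :
    ∃ b', p = some b' ∧ b' ≠ .x ∧ b' ≠ .q ∧ gg b' = 0 := by
  cases b <;> simp [lB] at h <;> subst h <;> simp [gg] at hg ⊢

theorem lA_gg {a : Nc} {p : Option Nc} (h : lA a = some p) : sm gg (pm p) = 0 := by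
  cases a <;> simp [lA] at h <;> subst h <;> simp [pm, gg]

theorem ct_V {k k' : Ct} {s s' : S} {ex : Multiset Nc} {i : ℕ} (hk : isV k = true)
    (h : CT P k s (some (k', s')) ex i) : ex = 0 ∧ ((isV k' = true ∧ th k' = th k + 1) ∨
      (k = .v6 ∧ k' = .rd ∧ P.nx s s' ∧ i = P.out s)) := by
  cases h <;> simp [isV] at hk <;> simp [th, isV]
  assumption

theorem isV_isA {k : Ct} (h : isV k = true) : isA k = true := by
  cases k <;> simp [isV, isA] at *

theorem pre_step {C D : Conf S} (h : SStep P C D) (hb : Pre C) : Pre D ∨ Bad D := by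
  obtain ⟨k0, s0, h1, h2, h3, ⟨o, h4, h5, h6⟩, h7⟩ := hb
  cases h with
  | @cb k s c' ex i b p R n hk hc hb' =>
    simp only [Option.some.injEq, Prod.mk.injEq] at h1
    obtain ⟨rfl, rfl⟩ := h1
    simp only [sm_cons] at h3 h7
    have h8 := lB_wt hb'
    have h9 := gg_nonneg b
    have h10 := sm_nonneg gg_nonneg R
    obtain ⟨b', rfl, h11, h12, h13⟩ := lB_ne hb' (by omega)
    rcases c' with _ | ⟨k', s'⟩
    · obtain ⟨rfl, rfl, _⟩ := ct_none P hc
      right
      simp only [Bad, sm_add, sm_zero, th] at h7 ⊢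
      omega
    · obtain ⟨rfl, ⟨h14, h15⟩ | ⟨rfl, rfl, _, _⟩⟩ := ct_V P h2 hc
      · left
        refine ⟨k', s', rfl, h14, ?_, ⟨b', ?_, h11, h12⟩, ?_⟩
        · simp only [pm, sm_add, sm_zero, sm_single]
          omega
        · simp [pm]
        · simp only [sm_add, sm_zero]
          omega
      · right
        simp only [Bad, sm_add, sm_zero, th] at h7 ⊢
        omega
  | @ci k s c' ex i E n hk hc hE =>
    rcases hE o h4 with h | h
    · exact absurd h h5
    · exact absurd h h6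
  | @ca k s c' ex i a p R n hk hc ha =>
    simp only [Option.some.injEq, Prod.mk.injEq] at h1
    obtain ⟨rfl, rfl⟩ := h1
    rw [isV_isA h2] at hk
    cases hk
  | @cj k s c' ex i E n hk hc hE =>
    simp only [Option.some.injEq, Prod.mk.injEq] at h1
    obtain ⟨rfl, rfl⟩ := h1
    rw [isV_isA h2] at hk
    cases hk
  | @ee c a b p r R n ha hb' =>
    simp only at h1
    subst h1
    simp only [sm_cons] at h3 h7
    have h8 := lB_wt hb'
    have h8' := lA_wt ha
    have h9 := gg_nonneg b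
    have h9' := gg_nonneg a
    have h10 := sm_nonneg gg_nonneg R
    have h14 := lA_gg ha
    obtain ⟨b', rfl, h11, h12, h13⟩ := lB_ne hb' (by omega)
    left
    refine ⟨k0, s0, rfl, h2, ?_, ⟨b', ?_, h11, h12⟩, ?_⟩
    · have : sm gg (pm (some b')) = gg b' := by simp [pm]
      simp only [sm_add, this]
      omega
    · simp [pm]
    · simp only [sm_add]
      omega
  | @na a p R n ha hR => cases h1
  | @nb b p R n hb' hR => cases h1

theorem pre_not_halt {C : Conf S} (h : Pre C) : ¬ (C.1 = none ∧ C.2.1 = 0) := by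
  rintro ⟨h1, h2⟩
  obtain ⟨k, s, h3, _⟩ := h
  rw [h1] at h3
  cases h3

/-- not enough work for the second catalyst -/
def kap : Ct → ℤ
  | .d => 1
  | _ => 0

/-- the second catalyst will run out of work -/
def Doom (C : Conf S) : Prop :=
  ∃ k s, C.1 = some (k, s) ∧ (k = .d ∨ k = .e ∨ (k = .f ∧ sm gg C.2.1 = 0)) ∧
    sm bw C.2.1 = 0 ∧ sm gg C.2.1 ≤ 1 ∧ kap k + sm gg C.2.1 + 1 ≤ sm rr C.2.1 ∧
    (sm i3 C.2.1 = 0 ∨ kap k + sm gg C.2.1 = 0) ∧ (sm i2 C.2.1 = 0 ∨ kap k + sm gg C.2.1 ≤ 1)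

theorem lB_g {b : Nc} {p : Option Nc} (h : lB b = some p) (hb : bw b = 0) : b = .g ∧ p = none := by
  cases b <;> simp [lB, bw] at h hb ⊢ <;> simp_all

theorem rr_xq {E : Multiset Nc} (h : ∀ o ∈ E, o = .x ∨ o = .q) : sm rr E = 0 :=
  sm_eq_zero fun a ha => by rcases h a ha with rfl | rfl <;> rfl

theorem rr_y {E : Multiset Nc} (h : ∀ o ∈ E, o = .y) : sm rr E = 0 :=
  sm_eq_zero fun a ha => by rw [h a ha]; rfl

theorem doom_step {C D : Conf S} (h : SStep P C D) (hb : Doom C) : Doom D := by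
  obtain ⟨k0, s0, h1, h2, h3, h4, h5, h6, h7⟩ := hb
  cases h with
  | @cb k s c' ex i b p R n hk hc hb' =>
    simp only [Option.some.injEq, Prod.mk.injEq] at h1
    obtain ⟨rfl, rfl⟩ := h1
    simp only [sm_cons] at *
    have n1 := bw_nonneg b
    have n2 := sm_nonneg bw_nonneg R
    have n3 := sm_nonneg gg_nonneg R
    have n4 := sm_nonneg i3_nonneg R
    have n5 := sm_nonneg i2_nonneg R
    obtain ⟨rfl, rfl⟩ := lB_g hb' (by omega)
    simp only [gg, rr, i3, i2, bw] at *
    rcases h2 with rfl | rfl | ⟨rfl, h2⟩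
    · simp [isA] at hk
    · cases hc
      refine ⟨.f, _, rfl, Or.inr (Or.inr ⟨rfl, ?_⟩), ?_, ?_, ?_, ?_, ?_⟩ <;>
        simp only [sm_add, sm_zero, pm, kap] at * <;> omega
    · omega
  | @ci k s c' ex i E n hk hc hE =>
    simp only [rr_xq hE] at h5
    have n3 := sm_nonneg gg_nonneg E
    have n4 : 0 ≤ kap k0 := by cases k0 <;> simp [kap]
    omega
  | @ca k s c' ex i a p R n hk hc ha =>
    simp only [Option.some.injEq, Prod.mk.injEq] at h1
    obtain ⟨rfl, rfl⟩ := h1
    have n2 := sm_nonneg bw_nonneg R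
    have n3 := sm_nonneg gg_nonneg R
    have n4 := sm_nonneg i3_nonneg R
    have n5 := sm_nonneg i2_nonneg R
    have hkd : k = .d := by
      rcases h2 with rfl | rfl | ⟨rfl, _⟩
      · rfl
      · simp [isA] at hk
      · simp [isA] at hk
    subst hkd
    cases hc
    refine ⟨.e, _, rfl, Or.inr (Or.inl rfl), ?_⟩
    simp only [sm_cons, sm_add, sm_zero, kap] at *
    cases a <;> simp [lA] at ha <;> subst ha <;>
      simp only [pm, sm_single, sm_zero, gg, rr, i3, i2, bw] at * <;>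
      (refine ⟨?_, ?_, ?_, ?_, ?_⟩ <;> omega)
  | @cj k s c' ex i E n hk hc hE =>
    simp only [rr_y hE] at h5
    have n3 := sm_nonneg gg_nonneg E
    have n4 : 0 ≤ kap k0 := by cases k0 <;> simp [kap]
    omega
  | @ee c a b p r R n ha hb' =>
    simp only at h1
    subst h1
    simp only [sm_cons] at *
    have n1 := bw_nonneg b
    have n1' := bw_nonneg a
    have n2 := sm_nonneg bw_nonneg R
    have n3 := sm_nonneg gg_nonneg R
    have n4 := sm_nonneg i3_nonneg R
    have n5 := sm_nonneg i2_nonneg R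
    have n6 := gg_nonneg a
    obtain ⟨rfl, rfl⟩ := lB_g hb' (by omega)
    have n7 : 0 ≤ kap k0 := by cases k0 <;> simp [kap]
    simp only [gg, rr, i3, i2, bw] at *
    have hk0 : k0 = .d ∨ k0 = .e := by
      rcases h2 with h2 | h2 | ⟨_, h2⟩
      · exact Or.inl h2
      · exact Or.inr h2
      · omega
    refine ⟨k0, s0, rfl, by rcases hk0 with h | h <;> simp [h], ?_⟩
    have n8 : kap k0 ≤ 1 := by cases k0 <;> simp [kap]
    simp only [sm_add, sm_zero]
    cases a <;> simp [lA] at ha <;> subst ha <;>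
      simp only [pm, sm_single, sm_zero, gg, rr, i3, i2, bw] at * <;>
      (refine ⟨?_, ?_, ?_, ?_, ?_⟩ <;> omega)
  | @na a p R n ha hR => cases h1
  | @nb b p R n hb' hR => cases h1

theorem doom_not_halt {C : Conf S} (h : Doom C) : ¬ (C.1 = none ∧ C.2.1 = 0) := by
  rintro ⟨h1, h2⟩
  obtain ⟨k, s, h3, _⟩ := h
  rw [h1] at h3
  cases h3

end Pool.Agent.W806.PC
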