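import Mathlib
import Pool.Agent.W806.PC.Inv

/-!
Soundness: every halting run of the system simulates an accepting run of the reader machine.
-/

set_option autoImplicit false

namespace Pool.Agent.W806.PC

variable {S : Type} (P : Prog S)

/-- reachable states of the reader machine: state, units still to be read, units written, output -/
inductive Rch : S → ℕ → ℕ → ℕ → Prop
  | start : Rch P.start P.x0 0 0
  | read {s : S} {a b n : ℕ} : Rch s (a + 1) b n → Rch (P.dl s) a (b + P.kk s) n
  | test {s s' : S} {b n : ℕ} : Rch s 0 b n → P.nx s s' → Rch s' b 0 (n + P.out s)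

/-- `a` input units and `b` written units -/
def T (a b : ℕ) : Multiset Nc := Multiset.replicate a .x + Multiset.replicate b .q

theorem T_mem {a b : ℕ} {o : Nc} (h : o ∈ T a b) : o = .x ∨ o = .q := by
  rcases Multiset.mem_add.1 h with h | h
  · exact Or.inl (Multiset.eq_of_mem_replicate h)
  · exact Or.inr (Multiset.eq_of_mem_replicate h)

theorem T_x (a b : ℕ) : T (a + 1) b = .x ::ₘ T a b := by
  simp [T, Multiset.replicate_succ]

theorem T_q (a b : ℕ) : T a (b + 1) = .q ::ₘ T a b := by
  simp [T, Multiset.replicate_succ]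

theorem T_cons {a b : ℕ} {o : Nc} {R : Multiset Nc} (h : o ::ₘ R = T a b) :
    (o = .x ∧ ∃ a', a = a' + 1 ∧ R = T a' b) ∨ (o = .q ∧ ∃ b', b = b' + 1 ∧ R = T a b') := by
  have hm : o ∈ T a b := by rw [← h]; exact Multiset.mem_cons_self _ _
  rcases Multiset.mem_add.1 hm with h1 | h1
  · have h2 := Multiset.eq_of_mem_replicate h1
    subst h2
    left
    refine ⟨rfl, ?_⟩
    cases a with
    | zero => simp at h1
    | succ a =>
      refine ⟨a, rfl, ?_⟩
      rw [T_x] at h
      exact (Multiset.cons_inj_right _).1 h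
  · have h2 := Multiset.eq_of_mem_replicate h1
    subst h2
    right
    refine ⟨rfl, ?_⟩
    cases b with
    | zero => simp at h1
    | succ b =>
      refine ⟨b, rfl, ?_⟩
      rw [T_q] at h
      exact (Multiset.cons_inj_right _).1 h

theorem T_lB {a b : ℕ} {o : Nc} {R : Multiset Nc} {p : Option Nc} (h : o ::ₘ R = T a b)
    (hp : lB o = some p) : False := by
  rcases T_cons h with ⟨rfl, _⟩ | ⟨rfl, _⟩ <;> simp [lB] at hp

theorem T_lA {a b : ℕ} {o : Nc} {R : Multiset Nc} {p : Option Nc} (h : o ::ₘ R = T a b)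
    (hp : lA o = some p) : (p = some .x1 ∧ ∃ a', a = a' + 1 ∧ R = T a' b) ∨
      (p = some .q1 ∧ ∃ b', b = b' + 1 ∧ R = T a b') := by
  rcases T_cons h with ⟨rfl, h1⟩ | ⟨rfl, h1⟩ <;> simp [lA] at hp <;> subst hp
  · exact Or.inl ⟨rfl, h1⟩
  · exact Or.inr ⟨rfl, h1⟩

@[simp] theorem sm_T (f : Nc → ℤ) (a b : ℕ) : sm f (T a b) = a * f .x + b * f .q := by
  simp [T]

theorem T_y {a b : ℕ} (h : ∀ o ∈ T a b, o = .y) : a = 0 ∧ b = 0 := by
  constructor
  · cases a with
    | zero => rfl
    | succ a => have := h .x (by rw [T_x]; exact Multiset.mem_cons_self _ _); cases this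
  · cases b with
    | zero => rfl
    | succ b => have := h .q (by rw [T_q]; exact Multiset.mem_cons_self _ _); cases this

/-- the states of the zero test -/
def isS : Ct → Bool
  | .w4 => true
  | .w3 => true
  | .w2 => true
  | .w1 => true
  | .w => true
  | .h => true
  | .h3 => true
  | .h2 => true
  | .h1 => true
  | _ => false

/-- invariant of the zero test, started with `n` input units and `m` written units: `e` input units
have been destroyed, and the first catalyst has been idle `I` times -/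
def Seg (n m : ℕ) (k : Ct) (E : Multiset Nc) : Prop :=
  sm gg E = 0 ∧ ∃ e I : ℤ, 0 ≤ e ∧ 0 ≤ I ∧ sm wt E - th k = -6 + I + 2 * e ∧
    sm un E + e = n + m ∧ (e = 0 → I = 0 → n ≤ sm xx E) ∧ (e = 0 → I = 1 → n = 0 ∧ sm qq E = 0)

theorem isS_isA {k : Ct} (h : isS k = true) : isA k = false := by
  cases k <;> simp [isS, isA] at *

theorem ct_S {k : Ct} {s : S} {c' : Option (Ct × S)} {ex : Multiset Nc} {i : ℕ}
    (hk : isS k = true) (h : CT P k s c' ex i) : ∃ k', c' = some (k', s) ∧ i = 0 ∧
      (isS k' = true ∨ k' = .v1) ∧ th k' = th k - 1 + sm wt ex ∧ sm un ex = 0 ∧ sm gg ex = 0 ∧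
      sm qq ex = 0 ∧ sm xx ex = 0 := by
  cases h <;> simp [isS] at hk <;> exact ⟨_, rfl, rfl, by simp [isS], by simp [th, wt],
    by simp [un], by simp [gg], by simp [qq], by simp [xx]⟩

theorem lA_seg {a : Nc} {p : Option Nc} (h : lA a = some p) :
    (a = .x ∧ p = some .x1) ∨ (sm wt (pm p) = wt a - 1 ∧ sm un (pm p) = un a ∧
      sm qq (pm p) ≤ qq a ∧ xx a = 0) := by
  cases a <;> simp [lA] at h <;> subst h <;> simp [pm, wt, un, qq, xx]

theorem lB_seg {b : Nc} {p : Option Nc} (h : lB b = some p) :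
    sm un (pm p) = un b ∧ sm qq (pm p) ≤ qq b ∧ xx b = 0 := by
  cases b <;> simp [lB] at h <;> subst h <;> simp [pm, un, qq, xx]

theorem lB_gg {b : Nc} {p : Option Nc} (h : lB b = some p) : sm gg (pm p) = 0 := by
  cases b <;> simp [lB] at h <;> subst h <;> simp [pm, gg]

theorem th_S {k : Ct} (h : isS k = true) : 6 ≤ th k := by
  cases k <;> simp [isS] at h <;> simp [th]

theorem seg_step {n m : ℕ} {k : Ct} {s : S} {E : Multiset Nc} {o : ℕ} {D : Conf S}
    (hk : isS k = true) (hS : Seg n m k E) (h : SStep P (some (k, s), E, o) D) :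
    ∃ k' E', D = (some (k', s), E', o) ∧ (isS k' = true ∨ k' = .v1) ∧ Seg n m k' E' := by
  obtain ⟨hg, e, I, he, hI, h1, h2, h3, h4⟩ := hS
  cases h with
  | @cb _ _ c' ex i b p R _ hk' hc hb' =>
    rw [isS_isA hk] at hk'; cases hk'
  | @ci _ _ c' ex i _ _ hk' hc hE =>
    rw [isS_isA hk] at hk'; cases hk'
  | @ca _ _ c' ex i a p R _ hk' hc ha =>
    obtain ⟨k', rfl, rfl, h5, h6, h7, h8, h9, h10⟩ := ct_S P hk hc
    refine ⟨k', _, rfl, h5, ?_⟩
    simp only [sm_cons] at *
    have n1 := gg_nonneg a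
    have n2 := sm_nonneg gg_nonneg R
    have n3 := lA_gg ha
    have n4 := qq_nonneg a
    have n5 := sm_nonneg qq_nonneg R
    have n6 := sm_nonneg xx_nonneg R
    have n7 := sm_nonneg qq_nonneg (pm p)
    have n8 := sm_nonneg xx_nonneg (pm p)
    rcases lA_seg ha with ⟨rfl, rfl⟩ | ⟨h11, h12, h13, h14⟩
    · refine ⟨?_, e + 1, I, by omega, hI, ?_, ?_, by omega, by omega⟩ <;>
        simp only [sm_add, pm, sm_single, wt, un, gg] at * <;> omega
    · refine ⟨?_, e, I, he, hI, ?_, ?_, ?_, ?_⟩
      · simp only [sm_add]; omega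
      · simp only [sm_add]; omega
      · simp only [sm_add]; omega
      · intro h15 h16; have := h3 h15 h16; simp only [sm_add]; omega
      · intro h15 h16; have := h4 h15 h16; simp only [sm_add]; omega
  | @cj _ _ c' ex i _ _ hk' hc hE =>
    obtain ⟨k', rfl, rfl, h5, h6, h7, h8, h9, h10⟩ := ct_S P hk hc
    refine ⟨k', _, rfl, h5, ?_⟩
    have h11 := wt_y hE
    have h12 : sm xx E = 0 := sm_eq_zero fun a ha => by rw [hE a ha]; rfl
    have h13 : sm qq E = 0 := sm_eq_zero fun a ha => by rw [hE a ha]; rfl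
    have h14 := th_S hk
    have h15 : I = 0 := by omega
    have h16 : e = 0 := by omega
    have h17 := h3 h16 h15
    refine ⟨?_, 0, 1, le_rfl, by norm_num, ?_, ?_, ?_, ?_⟩
    · simp only [sm_add]; omega
    · simp only [sm_add]; omega
    · simp only [sm_add]; omega
    · intro _ h18; omega
    · intro _ _; simp only [sm_add]; omega
  | @ee _ a b p r R _ ha hb' =>
    refine ⟨k, _, rfl, Or.inl hk, ?_⟩
    simp only [sm_cons] at *
    have n1 := gg_nonneg a
    have n1' := gg_nonneg b
    have n2 := sm_nonneg gg_nonneg R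
    have n3 := lA_gg ha
    have n3' := lB_gg hb'
    have n4 := qq_nonneg a
    have n4' := qq_nonneg b
    have n5 := sm_nonneg qq_nonneg R
    have n6 := sm_nonneg xx_nonneg R
    have n7 := sm_nonneg qq_nonneg (pm p)
    have n7' := sm_nonneg qq_nonneg (pm r)
    have n8 := sm_nonneg xx_nonneg (pm p)
    have n8' := sm_nonneg xx_nonneg (pm r)
    have m1 := lB_wt hb'
    obtain ⟨m2, m3, m4⟩ := lB_seg hb'
    rcases lA_seg ha with ⟨rfl, rfl⟩ | ⟨h11, h12, h13, h14⟩
    · refine ⟨?_, e + 1, I, by omega, hI, ?_, ?_, by omega, by omega⟩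
      · simp only [sm_add]; omega
      · simp only [sm_add]
        have : sm wt (pm (some Nc.x1)) = 1 := by simp [pm, wt]
        have : wt .x = 0 := rfl
        omega
      · simp only [sm_add]
        have : sm un (pm (some Nc.x1)) = 0 := by simp [pm, un]
        have : un .x = 1 := rfl
        omega
    · refine ⟨?_, e, I, he, hI, ?_, ?_, ?_, ?_⟩
      · simp only [sm_add]; omega
      · simp only [sm_add]; omega
      · simp only [sm_add]; omega
      · intro h15 h16; have := h3 h15 h16; simp only [sm_add]; omega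
      · intro h15 h16; have := h4 h15 h16; simp only [sm_add]; omega

theorem eq_T {E : Multiset Nc} (h : ∀ o ∈ E, o = .x ∨ o = .q) (hq : sm qq E = 0) :
    E = T (Multiset.card E) 0 := by
  induction E using Multiset.induction_on with
  | empty => rfl
  | cons a E ih =>
    rw [sm_cons] at hq
    have n1 := qq_nonneg a
    have n2 := sm_nonneg qq_nonneg E
    rw [Multiset.card_cons, T_x, ← ih (fun o ho => h o (Multiset.mem_cons_of_mem ho)) (by omega)]
    rcases h a (Multiset.mem_cons_self _ _) with rfl | rfl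
    · rfl
    · simp only [qq] at hq; omega

theorem seg_end {n m : ℕ} {s : S} {E : Multiset Nc} {o : ℕ} (hS : Seg n m .v1 E) :
    Pre (some (Ct.v1, s), E, o) ∨ (n = 0 ∧ E = T m 0) := by
  obtain ⟨hg, e, I, he, hI, h1, h2, h3, h4⟩ := hS
  by_cases hE : ∀ o ∈ E, o = .x ∨ o = .q
  · right
    have h5 := wt_xq hE
    simp only [th] at h1
    obtain ⟨h6, h7⟩ := h4 (by omega) (by omega)
    have h8 := eq_T hE h7
    have h9 : (Multiset.card E : ℤ) = m := by
      rw [h8] at h2
      simp only [sm_T, un] at h2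
      push_cast at h2
      omega
    refine ⟨by exact_mod_cast h6, ?_⟩
    rw [h8]
    congr 1
    exact_mod_cast h9
  · left
    push Not at hE
    refine ⟨.v1, s, rfl, rfl, hg, hE, ?_⟩
    simp only [th] at h1 ⊢
    omega

theorem ct_V2 {k k' : Ct} {s s' : S} {ex : Multiset Nc} {i : ℕ} (hk : isV k = true)
    (h : CT P k s (some (k', s')) ex i) : ex = 0 ∧ ((isV k' = true ∧ s' = s ∧ i = 0) ∨
      (k = .v6 ∧ k' = .rd ∧ P.nx s s' ∧ i = P.out s)) := by
  cases h <;> simp [isV] at hk <;> simp [isV]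
  assumption

/-- invariant of all runs -/
inductive Inv : Conf S → Prop
  | rd {s a b n} : Rch P s a b n → Inv (some (.rd, s), T a b, n)
  | cD {s a b n} : Rch P s a b n → Inv (some (.cD, s), T a b, n)
  | d1 {s a b n} : Rch P s (a + 1) b n → Inv (some (.d, s), .g ::ₘ .x1 ::ₘ T a b, n)
  | d0 {s a b n} : Rch P s (a + 1) b n → Inv (some (.d, s), T a b, n)
  | dE {s n} : Inv (some (.d, s), {.g}, n)
  | e1 {s a b n} : Rch P s (a + 1) b n → Inv (some (.e, s), .g ::ₘ T a b, n)
  | e0 {s a b n} : Rch P s (a + 1) b n → Inv (some (.e, s), T a b, n)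
  | f {s a b n} : Rch P s (a + 1) b n → Inv (some (.f, s), T a b, n)
  | seg {s k E a b n} : isS k = true → Rch P s a b n → Seg a b k E → Inv (some (k, s), E, n)
  | v {s k b n} : isV k = true → Rch P s 0 b n → Inv (some (k, s), T b 0, n)
  | fin {s E b n} : Rch P s 0 b n → P.acc s → Inv (none, E, n + P.out s)
  | pre {C} : Pre C → Inv C
  | bad {C} : Bad C → Inv C
  | doom {C} : Doom C → Inv C

theorem doom_mk {k : Ct} {s : S} {E : Multiset Nc} {n : ℕ}
    (h2 : k = .d ∨ k = .e ∨ (k = .f ∧ sm gg E = 0))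
    (h3 : sm bw E = 0) (h4 : sm gg E ≤ 1) (h5 : kap k + sm gg E + 1 ≤ sm rr E)
    (h6 : sm i3 E = 0 ∨ kap k + sm gg E = 0) (h7 : sm i2 E = 0 ∨ kap k + sm gg E ≤ 1) :
    Doom (some (k, s), E, n) := ⟨k, s, rfl, h2, h3, h4, h5, h6, h7⟩

theorem inv_step {C D : Conf S} (hC : Inv P C) (h : SStep P C D) : Inv P D := by
  cases hC with
  | bad hb => exact Inv.bad (bad_step P h hb)
  | doom hb => exact Inv.doom (doom_step P h hb)
  | pre hb =>
    rcases pre_step P h hb with h1 | h1
    · exact Inv.pre h1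
    · exact Inv.bad h1
  | @fin s E b n hR ha =>
    cases h with
    | ee => exact Inv.fin hR ha
    | na => exact Inv.fin hR ha
    | nb => exact Inv.fin hR ha
  | @seg s k E a b n hk hR hS =>
    obtain ⟨k', E', rfl, h1, h2⟩ := seg_step P hk hS h
    rcases h1 with h1 | rfl
    · exact Inv.seg h1 hR h2
    · rcases seg_end (s := s) (o := n) h2 with h3 | ⟨rfl, rfl⟩
      · exact Inv.pre h3
      · exact Inv.v rfl hR
  | @rd s a b n hR =>
    generalize hE : T a b = E at h
    cases h with
    | cb _ _ hb => exact (T_lB hE.symm hb).elim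
    | ci _ hc _ =>
      subst hE
      cases hc with
      | rdc => rw [zero_add, add_zero]; exact Inv.cD hR
      | rdw =>
        rw [add_zero]
        refine Inv.seg rfl hR ⟨?_, 0, 0, le_rfl, le_rfl, ?_, ?_, ?_, ?_⟩ <;>
          simp [gg, wt, th, un, xx, qq]
    | ca hk => simp [isA] at hk
    | cj hk => simp [isA] at hk
    | ee ha hb =>
      rw [Multiset.cons_swap] at hE
      exact (T_lB hE.symm hb).elim
  | @cD s a b n hR =>
    generalize hE : T a b = E at h
    cases h with
    | cb hk => simp [isA] at hk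
    | ci hk => simp [isA] at hk
    | ca _ hc ha =>
      cases hc
      rcases T_lA hE.symm ha with ⟨rfl, a', rfl, rfl⟩ | ⟨rfl, b', rfl, rfl⟩
      · exact Inv.d1 hR
      · exact Inv.doom (doom_mk (Or.inl rfl) (by simp [pm, bw]) (by simp [pm, gg])
          (by simp [pm, gg, rr, kap]) (by simp [pm, i3]) (by simp [pm, i2]))
    | cj _ hc hy =>
      cases hc
      subst hE
      obtain ⟨rfl, rfl⟩ := T_y hy
      exact Inv.dE
    | ee ha hb =>
      rw [Multiset.cons_swap] at hE
      exact (T_lB hE.symm hb).elim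
  | @f s a b n hR =>
    generalize hE : T a b = E at h
    cases h with
    | cb _ _ hb => exact (T_lB hE.symm hb).elim
    | ci _ hc _ =>
      subst hE
      cases hc
      have h1 := Inv.rd (Rch.read hR)
      convert h1 using 2
      rw [add_zero]
      congr 1
      simp only [T, Multiset.replicate_add]
      abel
    | ca hk => simp [isA] at hk
    | cj hk => simp [isA] at hk
    | ee ha hb =>
      rw [Multiset.cons_swap] at hE
      exact (T_lB hE.symm hb).elim
  | @e0 s a b n hR =>
    generalize hE : T a b = E at h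
    cases h with
    | cb _ _ hb => exact (T_lB hE.symm hb).elim
    | ci _ hc _ =>
      subst hE
      cases hc
      rw [zero_add, add_zero]
      exact Inv.f hR
    | ca hk => simp [isA] at hk
    | cj hk => simp [isA] at hk
    | ee ha hb =>
      rw [Multiset.cons_swap] at hE
      exact (T_lB hE.symm hb).elim
  | @v s k b n hk hR =>
    generalize hE : T b 0 = E at h
    cases h with
    | cb _ _ hb => exact (T_lB hE.symm hb).elim
    | @ci _ _ c' _ _ _ _ _ hc _ =>
      subst hE
      rcases c' with _ | ⟨k', s'⟩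
      · obtain ⟨rfl, rfl, rfl, h1⟩ := ct_none P hc
        exact Inv.fin hR h1
      · obtain ⟨rfl, ⟨h14, rfl, rfl⟩ | ⟨rfl, rfl, h16, rfl⟩⟩ := ct_V2 P hk hc
        · rw [zero_add, add_zero]
          exact Inv.v h14 hR
        · rw [zero_add]
          exact Inv.rd (Rch.test hR h16)
    | ca hk' => rw [isV_isA hk] at hk'; cases hk'
    | cj hk' => rw [isV_isA hk] at hk'; cases hk'
    | ee ha hb =>
      rw [Multiset.cons_swap] at hE
      exact (T_lB hE.symm hb).elim
  | @d0 s a b n hR =>
    generalize hE : T a b = E at h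
    cases h with
    | cb hk => simp [isA] at hk
    | ci hk => simp [isA] at hk
    | ca _ hc ha =>
      cases hc
      rcases T_lA hE.symm ha with ⟨rfl, a', rfl, rfl⟩ | ⟨rfl, b', rfl, rfl⟩
      · exact Inv.doom (doom_mk (Or.inr (Or.inl rfl)) (by simp [pm, bw]) (by simp [pm, gg])
          (by simp [pm, gg, rr, kap]) (by simp [pm, i3]) (by simp [pm, i2]))
      · exact Inv.doom (doom_mk (Or.inr (Or.inl rfl)) (by simp [pm, bw]) (by simp [pm, gg])
          (by simp [pm, gg, rr, kap]) (by simp [pm, i3]) (by simp [pm, i2]))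
    | cj _ hc hy =>
      cases hc
      subst hE
      rw [zero_add, add_zero]
      exact Inv.e0 hR
    | ee ha hb =>
      rw [Multiset.cons_swap] at hE
      exact (T_lB hE.symm hb).elim
  | @dE s n =>
    generalize hE : ({Nc.g} : Multiset Nc) = E at h
    cases h with
    | cb hk => simp [isA] at hk
    | ci hk => simp [isA] at hk
    | @ca _ _ _ _ _ a _ R _ _ _ ha =>
      have : a ∈ ({Nc.g} : Multiset Nc) := by rw [hE]; exact Multiset.mem_cons_self _ _
      rw [Multiset.mem_singleton] at this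
      subst this
      simp [lA] at ha
    | cj _ _ hy =>
      subst hE
      have := hy .g (Multiset.mem_singleton_self _)
      cases this
    | @ee _ a b _ _ R _ ha hb =>
      have : a ∈ ({Nc.g} : Multiset Nc) := by rw [hE]; exact Multiset.mem_cons_self _ _
      rw [Multiset.mem_singleton] at this
      subst this
      simp [lA] at ha
  | @e1 s a b n hR =>
    generalize hE : (Nc.g ::ₘ T a b) = E at h
    cases h with
    | @cb _ _ _ _ _ o p R _ _ hc hb =>
      cases hc
      rcases Multiset.cons_eq_cons.1 hE with ⟨rfl, rfl⟩ | ⟨_, cs, h1, h2⟩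
      · simp [lB] at hb
        subst hb
        simp only [pm, zero_add, add_zero]
        exact Inv.f hR
      · exact (T_lB h1.symm hb).elim
    | ci _ _ hx =>
      subst hE
      rcases hx .g (Multiset.mem_cons_self _ _) with h1 | h1 <;> cases h1
    | ca hk => simp [isA] at hk
    | cj hk => simp [isA] at hk
    | @ee _ o o' p r R _ ha hb =>
      rw [Multiset.cons_swap o o'] at hE
      rcases Multiset.cons_eq_cons.1 hE with ⟨rfl, h0⟩ | ⟨_, cs, h1, h2⟩
      · simp [lB] at hb
        subst hb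
        rcases T_lA h0.symm ha with ⟨rfl, a', rfl, rfl⟩ | ⟨rfl, b', rfl, rfl⟩
        · exact Inv.doom (doom_mk (Or.inr (Or.inl rfl)) (by simp [pm, bw]) (by simp [pm, gg])
            (by simp [pm, gg, rr, kap]) (by simp [pm, i3]) (by simp [pm, i2]))
        · exact Inv.doom (doom_mk (Or.inr (Or.inl rfl)) (by simp [pm, bw]) (by simp [pm, gg])
            (by simp [pm, gg, rr, kap]) (by simp [pm, i3]) (by simp [pm, i2]))
      · exact (T_lB h1.symm hb).elim
  | @d1 s a b n hR =>
    generalize hE : (Nc.g ::ₘ Nc.x1 ::ₘ T a b) = E at h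
    cases h with
    | cb hk => simp [isA] at hk
    | ci hk => simp [isA] at hk
    | @ca _ _ _ _ _ o p R _ _ hc ha =>
      cases hc
      rcases Multiset.cons_eq_cons.1 hE with ⟨rfl, rfl⟩ | ⟨_, cs, h1, rfl⟩
      · simp [lA] at ha
      · rcases Multiset.cons_eq_cons.1 h1 with ⟨rfl, rfl⟩ | ⟨_, ds, h2, rfl⟩
        · simp [lA] at ha
          subst ha
          simp only [pm, zero_add, add_zero]
          exact Inv.e1 hR
        · rcases T_lA h2.symm ha with ⟨rfl, a', rfl, rfl⟩ | ⟨rfl, b', rfl, rfl⟩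
          · exact Inv.doom (doom_mk (Or.inr (Or.inl rfl)) (by simp [pm, bw]) (by simp [pm, gg])
              (by simp [pm, gg, rr, kap]) (by simp [pm, i3]) (by simp [pm, i2]))
          · exact Inv.doom (doom_mk (Or.inr (Or.inl rfl)) (by simp [pm, bw]) (by simp [pm, gg])
              (by simp [pm, gg, rr, kap]) (by simp [pm, i3]) (by simp [pm, i2]))
    | cj _ _ hy =>
      subst hE
      have := hy .g (Multiset.mem_cons_self _ _)
      cases this
    | @ee _ o o' p r R _ ha hb =>
      rw [Multiset.cons_swap o o'] at hE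
      have hb' : o' = .g ∧ o ::ₘ R = .x1 ::ₘ T a b := by
        rcases Multiset.cons_eq_cons.1 hE with ⟨h0, h1⟩ | ⟨_, cs, h1, _⟩
        · exact ⟨h0.symm, h1.symm⟩
        · exfalso
          rcases Multiset.cons_eq_cons.1 h1 with ⟨rfl, _⟩ | ⟨_, ds, h2, _⟩
          · simp [lB] at hb
          · exact T_lB h2.symm hb
      obtain ⟨rfl, h3⟩ := hb'
      simp [lB] at hb
      subst hb
      rcases Multiset.cons_eq_cons.1 h3 with ⟨rfl, rfl⟩ | ⟨_, ds, rfl, h2⟩
      · simp [lA] at ha
        subst ha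
        simp only [pm, zero_add]
        exact Inv.d0 hR
      · rcases T_lA h2.symm ha with ⟨rfl, a', rfl, rfl⟩ | ⟨rfl, b', rfl, rfl⟩
        · exact Inv.doom (doom_mk (Or.inl rfl) (by simp [pm, bw]) (by simp [pm, gg])
            (by simp [pm, gg, rr, kap]) (by simp [pm, i3]) (by simp [pm, i2]))
        · exact Inv.doom (doom_mk (Or.inl rfl) (by simp [pm, bw]) (by simp [pm, gg])
            (by simp [pm, gg, rr, kap]) (by simp [pm, i3]) (by simp [pm, i2]))

theorem inv_halt {C : Conf S} (hC : Inv P C) (h1 : C.1 = none) (h2 : C.2.1 = 0) :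
    ∃ s b n, Rch P s 0 b n ∧ P.acc s ∧ C.2.2 = n + P.out s := by
  cases hC with
  | fin hR ha => exact ⟨_, _, _, hR, ha, rfl⟩
  | pre hb => exact absurd ⟨h1, h2⟩ (pre_not_halt hb)
  | bad hb => exact absurd ⟨h1, h2⟩ (bad_not_halt hb)
  | doom hb => exact absurd ⟨h1, h2⟩ (doom_not_halt hb)
  | _ => cases h1

/-- **Soundness.** -/
theorem sound {X : Multiset (Ob S) × ℕ}
    (h : Relation.ReflTransGen (MStep (RA P) (RB P)) (toM (some (.rd, P.start), T P.x0 0, 0)) X)
    (hX : MHalt (RA P) (RB P) X.1) : ∃ s b n, Rch P s 0 b n ∧ P.acc s ∧ X.2 = n + P.out s := by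
  have key : .trap ∈ X.1 ∨ ∃ C, X = toM C ∧ Inv P C := by
    clear hX
    induction h with
    | refl => exact Or.inr ⟨_, rfl, Inv.rd Rch.start⟩
    | tail _ h1 ih =>
      rcases ih with ih | ⟨C, rfl, hC⟩
      · exact Or.inl (trap_step P h1 ih)
      · rcases mstep_sstep P h1 with h2 | ⟨D, rfl, h3⟩
        · exact Or.inl h2
        · exact Or.inr ⟨D, rfl, inv_step P hC h3⟩
  rcases key with h1 | ⟨C, rfl, hC⟩
  · exact absurd hX (trap_not_halt P h1)
  · obtain ⟨h2, h3⟩ := (halt_iff P C).1 hX
    exact inv_halt P hC h2 h3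

end Pool.Agent.W806.PC
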