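import Mathlib
import Pool.Agent.W806.PC.Sound

/-!
Completeness: every accepting run of the reader machine is simulated by a halting run.
-/

set_option autoImplicit false

namespace Pool.Agent.W806.PC

variable {S : Type} (P : Prog S)

open Relation

/-- reachability -/
abbrev RT (C D : Conf S) : Prop := ReflTransGen (SStep P) C D

theorem pm2 (a b : Nc) (R : Multiset Nc) : pm (some a) + pm (some b) + R = a ::ₘ b ::ₘ R := by
  simp [pm, Multiset.singleton_add, Multiset.cons_add]

theorem pm1 (a : Nc) (R : Multiset Nc) : (0 : Multiset Nc) + pm (some a) + R = a ::ₘ R := by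
  simp [pm, Multiset.singleton_add]

theorem st_ee {c : Option (Ct × S)} {a b a' b' : Nc} (ha : lA a = some (some a'))
    (hb : lB b = some (some b')) (R : Multiset Nc) (n : ℕ) :
    SStep P (c, a ::ₘ b ::ₘ R, n) (c, a' ::ₘ b' ::ₘ R, n) := by
  have := SStep.ee (P := P) (c := c) (R := R) (n := n) ha hb
  rwa [pm2] at this

theorem ee4 {c : Option (Ct × S)} {a0 a1 a2 a3 b0 b1 b2 b3 : Nc} {p r : Option Nc}
    (h1 : lA a0 = some (some a1)) (h2 : lA a1 = some (some a2)) (h3 : lA a2 = some (some a3))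
    (h4 : lA a3 = some p) (k1 : lB b0 = some (some b1)) (k2 : lB b1 = some (some b2))
    (k3 : lB b2 = some (some b3)) (k4 : lB b3 = some r) (R : Multiset Nc) (n : ℕ) :
    RT P (c, a0 ::ₘ b0 ::ₘ R, n) (c, pm p + pm r + R, n) :=
  (((ReflTransGen.single (st_ee P h1 k1 R n)).tail (st_ee P h2 k2 R n)).tail
    (st_ee P h3 k3 R n)).tail (SStep.ee h4 k4)

theorem st_ca {k k' : Ct} {s s' : S} {a a' : Nc} (hk : isA k = false)
    (hc : CT P k s (some (k', s')) 0 0) (ha : lA a = some (some a')) (R : Multiset Nc) (n : ℕ) :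
    SStep P (some (k, s), a ::ₘ R, n) (some (k', s'), a' ::ₘ R, n) := by
  have := SStep.ca (P := P) (R := R) (n := n) hk hc ha
  rwa [pm1, add_zero] at this

theorem ca4 {k0 k1 k2 k3 k4 : Ct} {s : S} {a0 a1 a2 a3 : Nc} {p : Option Nc}
    (i0 : isA k0 = false) (i1 : isA k1 = false) (i2 : isA k2 = false) (i3 : isA k3 = false)
    (c1 : CT P k0 s (some (k1, s)) 0 0) (c2 : CT P k1 s (some (k2, s)) 0 0)
    (c3 : CT P k2 s (some (k3, s)) 0 0) (c4 : CT P k3 s (some (k4, s)) 0 0)
    (h1 : lA a0 = some (some a1)) (h2 : lA a1 = some (some a2)) (h3 : lA a2 = some (some a3))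
    (h4 : lA a3 = some p) (R : Multiset Nc) (n : ℕ) :
    RT P (some (k0, s), a0 ::ₘ R, n) (some (k4, s), pm p + R, n) := by
  have h5 := SStep.ca (P := P) (R := R) (n := n) i3 c4 h4
  rw [zero_add, add_zero] at h5
  exact (((ReflTransGen.single (st_ca P i0 c1 h1 R n)).tail (st_ca P i1 c2 h2 R n)).tail
    (st_ca P i2 c3 h3 R n)).tail h5

/-- forward conversion -/
theorem fwd_loop (s : S) (n : ℕ) (c d : ℕ) :
    RT P (some (.w, s), .a4 ::ₘ .r1 ::ₘ (Multiset.replicate c .q + Multiset.replicate d .y), n)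
      (some (.w, s), .a4 ::ₘ .r1 ::ₘ Multiset.replicate (c + d) .y, n) := by
  induction c generalizing d with
  | zero =>
    rw [Multiset.replicate_zero, zero_add, zero_add]
  | succ c ih =>
    have h1 := ee4 P (c := some (Ct.w, s)) (a0 := .q) (b0 := .r1) (p := some .r1) (r := some .y)
      rfl rfl rfl rfl rfl rfl rfl rfl
      (.a4 ::ₘ (Multiset.replicate c .q + Multiset.replicate d .y)) n
    have h2 := ih (d + 1)
    have e1 : (Nc.q ::ₘ Nc.r1 ::ₘ Nc.a4 ::ₘ (Multiset.replicate c .q + Multiset.replicate d .y)) =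
        .a4 ::ₘ .r1 ::ₘ (Multiset.replicate (c + 1) .q + Multiset.replicate d .y) := by
      simp only [Multiset.replicate_succ, ← Multiset.singleton_add]
      abel
    have e2 : pm (some Nc.r1) + pm (some Nc.y) +
        (Nc.a4 ::ₘ (Multiset.replicate c .q + Multiset.replicate d .y)) =
        .a4 ::ₘ .r1 ::ₘ (Multiset.replicate c .q + Multiset.replicate (d + 1) .y) := by
      simp only [pm, Multiset.replicate_succ, ← Multiset.singleton_add]
      abel
    rw [e1, e2] at h1
    have e3 : c + 1 + d = c + (d + 1) := by omega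
    rw [e3]
    exact h1.trans h2

theorem fwd (s : S) (n b : ℕ) :
    RT P (some (.w4, s), .a4 ::ₘ Multiset.replicate b .q, n)
      (some (.w, s), Multiset.replicate b .y, n) := by
  cases b with
  | zero =>
    have := ca4 P (k0 := .w4) (k1 := .w3) (k2 := .w2) (k3 := .w1) (k4 := .w) (s := s)
      (a0 := .a4) (a1 := .a3) (a2 := .a2) (a3 := .a1) (p := none) rfl rfl rfl rfl
      (.w4 s) (.w3 s) (.w2 s) (.w1 s) rfl rfl rfl rfl 0 n
    simpa [pm] using this
  | succ b =>
    have h1 := ca4 P (k0 := .w4) (k1 := .w3) (k2 := .w2) (k3 := .w1) (k4 := .w) (s := s)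
      (a0 := .q) (a1 := .q1) (a2 := .q2) (a3 := .q3) (p := some .r1) rfl rfl rfl rfl
      (.w4 s) (.w3 s) (.w2 s) (.w1 s) rfl rfl rfl rfl (.a4 ::ₘ Multiset.replicate b .q) n
    have e1 : (Nc.q ::ₘ Nc.a4 ::ₘ Multiset.replicate b .q) =
        .a4 ::ₘ Multiset.replicate (b + 1) .q := by
      rw [Multiset.replicate_succ, Multiset.cons_swap]
    have e2 : pm (some Nc.r1) + (Nc.a4 ::ₘ Multiset.replicate b .q) =
        .a4 ::ₘ .r1 ::ₘ (Multiset.replicate b .q + Multiset.replicate 0 .y) := by
      simp only [pm, Multiset.replicate_zero, ← Multiset.singleton_add]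
      abel
    rw [e1, e2] at h1
    have h2 := fwd_loop P s n b 0
    have h3 := ee4 P (c := some (Ct.w, s)) (a0 := .a4) (b0 := .r1) (p := none) (r := some .y)
      rfl rfl rfl rfl rfl rfl rfl rfl (Multiset.replicate (b + 0) .y) n
    have e3 : pm none + pm (some Nc.y) + Multiset.replicate (b + 0) .y =
        Multiset.replicate (b + 1) .y := by
      simp only [pm, Multiset.replicate_succ, ← Multiset.singleton_add, zero_add, add_zero]
    rw [e3] at h3
    exact (h1.trans h2).trans h3

/-- backward conversion -/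
theorem bwd_loop (s : S) (n : ℕ) (c d : ℕ) :
    RT P (some (.h, s), .z1 ::ₘ (Multiset.replicate c .y + Multiset.replicate d .x), n)
      (some (.h, s), .z1 ::ₘ Multiset.replicate (c + d) .x, n) := by
  induction c generalizing d with
  | zero =>
    rw [Multiset.replicate_zero, zero_add, zero_add]
  | succ c ih =>
    have h1 := ee4 P (c := some (Ct.h, s)) (a0 := .z1) (b0 := .y) (p := some .x) (r := some .z1)
      rfl rfl rfl rfl rfl rfl rfl rfl
      (Multiset.replicate c .y + Multiset.replicate d .x) n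
    have h2 := ih (d + 1)
    have e1 : (Nc.z1 ::ₘ Nc.y ::ₘ (Multiset.replicate c .y + Multiset.replicate d .x)) =
        .z1 ::ₘ (Multiset.replicate (c + 1) .y + Multiset.replicate d .x) := by
      simp only [Multiset.replicate_succ, ← Multiset.singleton_add]
      abel
    have e2 : pm (some Nc.x) + pm (some Nc.z1) +
        (Multiset.replicate c .y + Multiset.replicate d .x) =
        .z1 ::ₘ (Multiset.replicate c .y + Multiset.replicate (d + 1) .x) := by
      simp only [pm, Multiset.replicate_succ, ← Multiset.singleton_add]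
      abel
    rw [e1, e2] at h1
    have e3 : c + 1 + d = c + (d + 1) := by omega
    rw [e3]
    exact h1.trans h2

theorem bwd (s : S) (n b : ℕ) :
    RT P (some (.h, s), .a4 ::ₘ Multiset.replicate b .y, n)
      (some (.v1, s), Multiset.replicate b .x, n) := by
  cases b with
  | zero =>
    have := ca4 P (k0 := .h) (k1 := .h3) (k2 := .h2) (k3 := .h1) (k4 := .v1) (s := s)
      (a0 := .a4) (a1 := .a3) (a2 := .a2) (a3 := .a1) (p := none) rfl rfl rfl rfl
      (.h s) (.h3 s) (.h2 s) (.h1 s) rfl rfl rfl rfl 0 n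
    simpa [pm] using this
  | succ b =>
    have h1 := ee4 P (c := some (Ct.h, s)) (a0 := .a4) (b0 := .y) (p := none) (r := some .z1)
      rfl rfl rfl rfl rfl rfl rfl rfl (Multiset.replicate b .y) n
    have e1 : (Nc.a4 ::ₘ Nc.y ::ₘ Multiset.replicate b .y) =
        .a4 ::ₘ Multiset.replicate (b + 1) .y := by
      rw [Multiset.replicate_succ]
    have e2 : pm none + pm (some Nc.z1) + Multiset.replicate b .y =
        .z1 ::ₘ (Multiset.replicate b .y + Multiset.replicate 0 .x) := by
      simp only [pm, Multiset.replicate_zero, ← Multiset.singleton_add]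
      abel
    rw [e1, e2] at h1
    have h2 := bwd_loop P s n b 0
    have h3 := ca4 P (k0 := .h) (k1 := .h3) (k2 := .h2) (k3 := .h1) (k4 := .v1) (s := s)
      (a0 := .z1) (a1 := .z2) (a2 := .z3) (a3 := .z4) (p := some .x) rfl rfl rfl rfl
      (.h s) (.h3 s) (.h2 s) (.h1 s) rfl rfl rfl rfl (Multiset.replicate (b + 0) .x) n
    have e3 : pm (some Nc.x) + Multiset.replicate (b + 0) .x =
        Multiset.replicate (b + 1) .x := by
      simp only [pm, Multiset.replicate_succ, ← Multiset.singleton_add, add_zero]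
    rw [e3] at h3
    exact (h1.trans h2).trans h3

theorem T_zero_q (b : ℕ) : T 0 b = Multiset.replicate b .q := by simp [T]
theorem T_zero_x (b : ℕ) : T b 0 = Multiset.replicate b .x := by simp [T]

theorem st_v {k k' : Ct} {s : S} (hk : isA k = true) (hc : CT P k s (some (k', s)) 0 0)
    (a b n : ℕ) : SStep P (some (k, s), T a b, n) (some (k', s), T a b, n) := by
  have := SStep.ci (P := P) (E := T a b) (n := n) hk hc fun o ho => T_mem ho
  rwa [zero_add, add_zero] at this

/-- the zero test -/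
theorem test_run (s : S) (b n : ℕ) : RT P (some (.rd, s), T 0 b, n) (some (.v6, s), T b 0, n) := by
  have h1 := SStep.ci (P := P) (E := T 0 b) (n := n) (k := .rd) rfl (CT.rdw s) fun o ho => T_mem ho
  rw [T_zero_q, add_zero, Multiset.singleton_add] at h1
  have h2 := SStep.cj (P := P) (E := Multiset.replicate b .y) (n := n) (k := .w) rfl (CT.w s)
    fun o ho => Multiset.eq_of_mem_replicate ho
  rw [add_zero, Multiset.singleton_add] at h2
  have h3 := ((ReflTransGen.single h1).trans (fwd P s n b)).tail h2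
  have h4 := h3.trans (bwd P s n b)
  rw [← T_zero_x, ← T_zero_q] at h4
  exact ((((h4.tail (st_v P rfl (CT.v1 s) b 0 n)).tail (st_v P rfl (CT.v2 s) b 0 n)).tail
    (st_v P rfl (CT.v3 s) b 0 n)).tail (st_v P rfl (CT.v4 s) b 0 n)).tail
    (st_v P rfl (CT.v5 s) b 0 n)

/-- reading one unit -/
theorem read_run (s : S) (a b n : ℕ) :
    RT P (some (.rd, s), T (a + 1) b, n) (some (.rd, P.dl s), T a (b + P.kk s), n) := by
  have h1 := st_v P (k := .rd) rfl (CT.rdc s) (a + 1) b n
  have h2 := SStep.ca (P := P) (R := T a b) (n := n) (k := .cD) (a := .x) rfl (CT.cD s) rfl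
  rw [← T_x] at h2
  have h3 := SStep.ca (P := P) (R := .g ::ₘ T a b) (n := n) (k := .d) (a := .x1) rfl (CT.d s) rfl
  have e1 : ({Nc.g} : Multiset Nc) + pm (some .x1) + T a b = .x1 ::ₘ .g ::ₘ T a b := by
    simp only [pm, ← Multiset.singleton_add]
    abel
  rw [e1] at h2
  have h4 := SStep.cb (P := P) (R := T a b) (n := n) (k := .e) (b := .g) rfl (CT.e s) rfl
  have e2 : (0 : Multiset Nc) + pm none + (.g ::ₘ T a b) = .g ::ₘ T a b := by simp [pm]
  have e3 : (0 : Multiset Nc) + pm none + T a b = T a b := by simp [pm]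
  rw [e2] at h3
  rw [e3] at h4
  have h5 := SStep.ci (P := P) (E := T a b) (n := n) (k := .f) rfl (CT.f s) fun o ho => T_mem ho
  have e4 : Multiset.replicate (P.kk s) Nc.q + T a b = T a (b + P.kk s) := by
    simp only [T, Multiset.replicate_add]
    abel
  rw [e4] at h5
  simp only [add_zero] at h2 h3 h4 h5
  exact ((((ReflTransGen.single h1).tail h2).tail h3).tail h4).tail h5

theorem rch_run {s : S} {a b n : ℕ} (h : Rch P s a b n) :
    RT P (some (.rd, P.start), T P.x0 0, 0) (some (.rd, s), T a b, n) := by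
  induction h with
  | start => exact ReflTransGen.refl
  | read _ ih => exact ih.trans (read_run P _ _ _ _)
  | @test s s' b n _ hx ih =>
    have h1 := SStep.ci (P := P) (E := T b 0) (n := n) (k := .v6) rfl (CT.v6 s s' hx)
      fun o ho => T_mem ho
    rw [zero_add] at h1
    exact (ih.trans (test_run P s b n)).tail h1

theorem acc_run {s : S} {n : ℕ} (h : Rch P s 0 0 n) (ha : P.acc s) :
    RT P (some (.rd, P.start), T P.x0 0, 0) (none, 0, n + P.out s) := by
  have h1 := SStep.ci (P := P) (E := T 0 0) (n := n) (k := .v6) rfl (CT.acc s ha)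
    fun o ho => T_mem ho
  have e : (0 : Multiset Nc) + T 0 0 = 0 := by simp [T]
  rw [e] at h1
  exact ((rch_run P h).trans (test_run P s 0 n)).tail h1

theorem rt_mstep {C D : Conf S} (h : RT P C D) :
    ReflTransGen (MStep (RA P) (RB P)) (toM C) (toM D) := by
  induction h with
  | refl => exact ReflTransGen.refl
  | tail _ h1 ih => exact ih.tail (sstep_mstep P h1)

/-- the results of the system -/
theorem results_iff (S' : Set ℕ) (h1 : ∀ s b n, Rch P s 0 b n → P.acc s → n + P.out s ∈ S')
    (h2 : ∀ n ∈ S', ∃ s k, Rch P s 0 0 k ∧ P.acc s ∧ n = k + P.out s) (n : ℕ) :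
    n ∈ S' ↔ ∃ X : Multiset (Ob S) × ℕ,
      ReflTransGen (MStep (RA P) (RB P)) (toM (some (.rd, P.start), T P.x0 0, 0)) X ∧
      MHalt (RA P) (RB P) X.1 ∧ X.2 = n := by
  constructor
  · intro hn
    obtain ⟨s, k, h3, h4, rfl⟩ := h2 n hn
    exact ⟨toM (none, 0, k + P.out s), rt_mstep P (acc_run P h3 h4), (halt_iff P _).2 ⟨rfl, rfl⟩, rfl⟩
  · rintro ⟨X, h3, h4, rfl⟩
    obtain ⟨s, b, k, h5, h6, h7⟩ := sound P h3 h4
    rw [h7]
    exact h1 s b k h5 h6

end Pool.Agent.W806.PC
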