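import Mathlib
import Pool.Agent.Helper273.Machine
import Pool.Agent.W806.PC.Complete

/-!
Reader machines generate all recursively enumerable sets of numbers: Gödel numbering of the
registers of a register machine.
-/

set_option autoImplicit false

namespace Pool.Agent.W806.PC

open Function Pool.Agent.Helper273.Machine

/-- primes -/
noncomputable def pr (r : ℕ) : ℕ := Nat.nth Nat.Prime r

theorem pr_prime (r : ℕ) : (pr r).Prime := Nat.prime_nth_prime r

theorem pr_inj {r s : ℕ} (h : pr r = pr s) : r = s :=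
  Nat.nth_injective Nat.infinite_setOfPred_prime h

theorem pr_lt {r s : ℕ} (h : r < s) : pr r < pr s :=
  Nat.nth_strictMono Nat.infinite_setOfPred_prime h

section Goedel

variable {M : ℕ}

/-- Gödel number -/
noncomputable def G (σ : Fin M → ℕ) : ℕ := ∏ r : Fin M, pr r ^ σ r

theorem G_inc (σ : Fin M → ℕ) (r : Fin M) : G (update σ r (σ r + 1)) = pr r * G σ := by
  have h : ∀ s : Fin M, pr s ^ (update σ r (σ r + 1) s) =
      pr s ^ σ s * (if s = r then pr r else 1) := by
    intro s
    by_cases hs : s = r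
    · subst hs; simp [pow_succ]
    · simp [hs]
  unfold G
  rw [Finset.prod_congr rfl fun s _ => h s, Finset.prod_mul_distrib, Finset.prod_ite_eq']
  simp [mul_comm]

theorem G_dec (σ : Fin M → ℕ) (r : Fin M) (h : σ r ≠ 0) :
    G σ = pr r * G (update σ r (σ r - 1)) := by
  rw [← G_inc]
  congr 1
  funext s
  by_cases hs : s = r
  · subst hs; simp; omega
  · simp [hs]

theorem G_dvd (σ : Fin M → ℕ) (r : Fin M) (h : pr r ∣ G σ) : σ r ≠ 0 := by
  intro h0
  obtain ⟨s, _, hs⟩ := (Nat.Prime.prime (pr_prime r)).dvd_finsetProd_iff _ |>.1 h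
  have h1 := (pr_prime r).dvd_of_dvd_pow hs
  have h2 := (Nat.prime_dvd_prime_iff_eq (pr_prime r) (pr_prime s)).1 h1
  have h3 : r = s := Fin.ext (pr_inj h2)
  subst h3
  rw [h0, pow_zero] at hs
  exact (pr_prime r).one_lt.ne' (Nat.dvd_one.1 hs)

theorem G_one {σ : Fin M → ℕ} (h : G σ = 1) : σ = fun _ => 0 := by
  funext r
  by_contra h0
  have := G_dec σ r h0
  rw [h] at this
  exact (pr_prime r).one_lt.ne' (Nat.eq_one_of_mul_eq_one_right this.symm)

theorem G_zero : G (fun _ : Fin M => 0) = 1 := by simp [G]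

theorem st0_zero : st0 M 0 0 = fun _ => 0 := by
  funext r
  simp [st0]

end Goedel

section

variable {N L : ℕ} (ins : Fin (L + 1) → MI (N + 3) (Fin (L + 1)))

/-- a bound for the primes -/
noncomputable def bd (N : ℕ) : ℕ := pr (N + 3)

theorem pr_lt_bd (r : Fin (N + 3)) : pr r < bd N := pr_lt r.2

/-- states of the reader machine -/
inductive Q (N L : ℕ)
  | st
  | ga
  | gb
  | inc (q : Fin (L + 1))
  | jm (q : Fin (L + 1))
  | dv (q : Fin (L + 1)) (j : Fin (bd N + 1))
  | cp (q : Fin (L + 1)) (j : Fin (bd N + 1))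
  | f0
  | f1
  | dead

instance : Finite (Q N L) := by
  have : Function.Injective (fun s : Q N L => match s with
      | .st => (Sum.inl 0 : Fin 6 ⊕ (Fin 4 × Fin (L + 1) × Fin (bd N + 1)))
      | .ga => Sum.inl 1
      | .gb => Sum.inl 2
      | .f0 => Sum.inl 3
      | .f1 => Sum.inl 4
      | .dead => Sum.inl 5
      | .inc q => Sum.inr (0, q, 0)
      | .jm q => Sum.inr (1, q, 0)
      | .dv q j => Sum.inr (2, q, j)
      | .cp q j => Sum.inr (3, q, j)) := by
    intro p q h
    cases p <;> cases q <;> simp_all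
  exact Finite.of_injective _ this

/-- prime of an instruction -/
noncomputable def rp (q : Fin (L + 1)) : ℕ :=
  match ins q with
  | .inc r _ => pr r
  | .dec r _ _ => pr r
  | .jmp _ => 1

/-- first pass for an instruction -/
def Ent (q : Fin (L + 1)) (s : Q N L) : Prop :=
  (match ins q with
    | .inc _ _ => s = .inc q
    | .dec _ _ _ => s = .dv q 0 ∨ s = .cp q 0
    | .jmp _ => s = .jm q) ∨ (q = Fin.last L ∧ s = .f0)

/-- the reader machine of a register machine -/
noncomputable def prog : Prog (Q N L) where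
  start := .st
  x0 := 1
  kk
    | .st => 1
    | .ga => pr 0
    | .gb => pr 1
    | .inc q => rp ins q
    | .jm _ => 1
    | .dv q j => if (j : ℕ) + 1 = rp ins q then 1 else 0
    | .cp _ _ => 1
    | _ => 0
  dl
    | .dv q j => .dv q (Fin.ofNat (bd N + 1) (if (j : ℕ) + 1 = rp ins q then 0 else j + 1))
    | .cp q j => .cp q (Fin.ofNat (bd N + 1) (if (j : ℕ) + 1 = rp ins q then 0 else j + 1))
    | .f0 => .f1
    | .f1 => .dead
    | s => s
  out
    | .ga => 1
    | _ => 0
  nx
    | .st, s => s = .ga ∨ s = .gb ∨ Ent ins 0 s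
    | .ga, s => s = .ga ∨ s = .gb ∨ Ent ins 0 s
    | .gb, s => s = .gb ∨ Ent ins 0 s
    | .inc q, s => ∃ r t, ins q = .inc r t ∧ Ent ins t s
    | .jm q, s => ∃ t, ins q = .jmp t ∧ Ent ins t s
    | .dv q j, s => (j : ℕ) = 0 ∧ ∃ r t t', ins q = .dec r t t' ∧ Ent ins t s
    | .cp q j, s => (j : ℕ) ≠ 0 ∧ ∃ r t t', ins q = .dec r t t' ∧ Ent ins t' s
    | _, _ => False
  acc
    | .f1 => True
    | _ => False

/-- reachable register contents -/
def MR (n : ℕ) (q : Fin (L + 1)) (σ : Fin (N + 3) → ℕ) : Prop :=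
  ∃ k j, (mstep ins)^[j] (0, st0 (N + 3) n k) = (q, σ)

theorem MR.next {n : ℕ} {q q' : Fin (L + 1)} {σ σ' : Fin (N + 3) → ℕ} (h : MR ins n q σ)
    (h1 : mstep ins (q, σ) = (q', σ')) : MR ins n q' σ' := by
  obtain ⟨k, j, h⟩ := h
  exact ⟨k, j + 1, by rw [iterate_succ_apply', h, h1]⟩

/-- meaning of the states -/
def J (s : Q N L) (a b n : ℕ) : Prop :=
  match s with
  | .st => b + a = 1 ∧ n = 0
  | .ga => b + pr 0 * a = pr 0 * G (st0 (N + 3) n 0)
  | .gb => ∃ k, b + pr 1 * a = pr 1 * G (st0 (N + 3) n k)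
  | .inc q => ∃ r t σ, ins q = .inc r t ∧ MR ins n q σ ∧ b + pr r * a = pr r * G σ
  | .jm q => ∃ t σ, ins q = .jmp t ∧ MR ins n q σ ∧ b + a = G σ
  | .dv q j => ∃ r t t' σ, ins q = .dec r t t' ∧ MR ins n q σ ∧ (j : ℕ) < pr r ∧
      pr r * b + j + a = G σ
  | .cp q j => ∃ r t t' σ, ins q = .dec r t t' ∧ MR ins n q σ ∧ (j : ℕ) = b % pr r ∧ b + a = G σ
  | .f0 => ∃ σ, MR ins n (Fin.last L) σ ∧ a = G σ ∧ b = 0
  | .f1 => ∃ σ, MR ins n (Fin.last L) σ ∧ a + 1 = G σ ∧ b = 0
  | .dead => True

theorem J_ent {q : Fin (L + 1)} {s : Q N L} {n : ℕ} {σ : Fin (N + 3) → ℕ} (h : Ent ins q s)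
    (hM : MR ins n q σ) : J ins s (G σ) 0 n := by
  rcases h with h | ⟨rfl, rfl⟩
  · cases hq : ins q with
    | inc r t =>
      rw [hq] at h
      subst h
      exact ⟨r, t, σ, hq, hM, by ring⟩
    | dec r t t' =>
      rw [hq] at h
      rcases h with rfl | rfl
      · exact ⟨r, t, t', σ, hq, hM, by simpa using (pr_prime r).pos, by simp⟩
      · exact ⟨r, t, t', σ, hq, hM, by simp, by simp⟩
    | jmp t =>
      rw [hq] at h
      subst h
      exact ⟨t, σ, hq, hM, by ring⟩
  · exact ⟨σ, hM, rfl, rfl⟩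

theorem rp_dec {q : Fin (L + 1)} {r : Fin (N + 3)} {t t' : Fin (L + 1)} (h : ins q = .dec r t t') :
    rp ins q = pr r := by simp [rp, h]

theorem rp_inc {q : Fin (L + 1)} {r : Fin (N + 3)} {t : Fin (L + 1)} (h : ins q = .inc r t) :
    rp ins q = pr r := by simp [rp, h]

theorem ofNat_lt {B j : ℕ} (h : j < B + 1) : ((Fin.ofNat (B + 1) j : Fin (B + 1)) : ℕ) = j := by
  simp [Fin.ofNat, Nat.mod_eq_of_lt h]

theorem nextj {r : Fin (N + 3)} {j : Fin (bd N + 1)} (hj : (j : ℕ) < pr r) :
    ((Fin.ofNat (bd N + 1) (if (j : ℕ) + 1 = pr r then 0 else (j : ℕ) + 1) : Fin (bd N + 1)) : ℕ) =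
      if (j : ℕ) + 1 = pr r then 0 else (j : ℕ) + 1 := by
  have := pr_lt_bd (N := N) r
  apply ofNat_lt
  split_ifs <;> omega

theorem st0_inc0 (n k : ℕ) : st0 (N + 3) (n + 1) k =
    update (st0 (N + 3) n k) 0 (st0 (N + 3) n k 0 + 1) := by
  funext s
  by_cases hs : s = 0
  · subst hs; simp [st0]
  · have : (s : ℕ) ≠ 0 := fun h => hs (Fin.ext h)
    simp [st0, hs, this]

theorem st0_inc1 (n k : ℕ) : st0 (N + 3) n (k + 1) =
    update (st0 (N + 3) n k) 1 (st0 (N + 3) n k 1 + 1) := by
  have h1 : ((1 : Fin (N + 3)) : ℕ) = 1 := rfl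
  funext s
  by_cases hs : s = 1
  · subst hs; simp [st0, h1]
  · have : (s : ℕ) ≠ 1 := fun h => hs (Fin.ext (by rw [h, h1]))
    simp [st0, hs, this]

theorem G_st0_0 (n k : ℕ) : G (st0 (N + 3) (n + 1) k) = pr 0 * G (st0 (N + 3) n k) := by
  rw [st0_inc0, G_inc]; rfl

theorem G_st0_1 (n k : ℕ) : G (st0 (N + 3) n (k + 1)) = pr 1 * G (st0 (N + 3) n k) := by
  rw [st0_inc1, G_inc]; rfl

theorem G_st0_00 : G (st0 (N + 3) 0 0) = 1 := by rw [st0_zero, G_zero]

theorem rch_J {s : Q N L} {a b n : ℕ} (h : Rch (prog ins) s a b n) : J ins s a b n := by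
  induction h with
  | start => exact ⟨rfl, rfl⟩
  | @read s a b n _ ih =>
    cases s with
    | st => obtain ⟨h1, h2⟩ := ih; exact ⟨by simp only [prog]; omega, h2⟩
    | ga =>
      simp only [J, prog] at ih ⊢
      rw [← ih]; ring
    | gb =>
      obtain ⟨k, ih⟩ := ih
      refine ⟨k, ?_⟩
      simp only [prog]
      rw [← ih]; ring
    | inc q =>
      obtain ⟨r, t, σ, h1, h2, h3⟩ := ih
      refine ⟨r, t, σ, h1, h2, ?_⟩
      simp only [prog, rp_inc ins h1]
      rw [← h3]; ring
    | jm q =>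
      obtain ⟨t, σ, h1, h2, h3⟩ := ih
      refine ⟨t, σ, h1, h2, ?_⟩
      simp only [prog]
      omega
    | dv q j =>
      obtain ⟨r, t, t', σ, h1, h2, h3, h4⟩ := ih
      refine ⟨r, t, t', σ, h1, h2, ?_, ?_⟩
      · simp only [rp_dec ins h1]
        rw [nextj h3]
        have := (pr_prime r).pos
        split_ifs <;> omega
      · simp only [prog, rp_dec ins h1]
        rw [nextj h3]
        split_ifs with h5
        · rw [← h4, mul_add]; omega
        · rw [← h4, add_zero]; omega
    | cp q j =>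
      obtain ⟨r, t, t', σ, h1, h2, h3, h4⟩ := ih
      have hj : (j : ℕ) < pr r := by rw [h3]; exact Nat.mod_lt _ (pr_prime r).pos
      refine ⟨r, t, t', σ, h1, h2, ?_, ?_⟩
      · simp only [prog, rp_dec ins h1]
        rw [nextj hj, h3]
        have hp := (pr_prime r).one_lt
        rw [Nat.add_mod, Nat.mod_eq_of_lt hp]
        split_ifs with h5
        · rw [h5, Nat.mod_self]
        · rw [Nat.mod_eq_of_lt (show b % pr r + 1 < pr r by omega)]
      · simp only [prog]
        omega
    | f0 =>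
      obtain ⟨σ, h1, h2, h3⟩ := ih
      exact ⟨σ, h1, h2, by simp only [prog]; omega⟩
    | f1 => trivial
    | dead => trivial
  | @test s s' b n _ hx ih =>
    cases s with
    | st =>
      obtain ⟨h1, rfl⟩ := ih
      have hb : b = G (st0 (N + 3) 0 0) := by rw [G_st0_00]; omega
      simp only [prog, add_zero] at hx ⊢
      subst hb
      rcases hx with rfl | rfl | hx
      · simp only [J]; ring
      · exact ⟨0, by ring⟩
      · exact J_ent ins hx ⟨0, 0, rfl⟩
    | ga =>
      simp only [J, mul_zero, add_zero] at ih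
      rw [← G_st0_0] at ih
      subst ih
      simp only [prog] at hx ⊢
      rcases hx with rfl | rfl | hx
      · simp only [J]; ring
      · exact ⟨0, by ring⟩
      · exact J_ent ins hx ⟨0, 0, rfl⟩
    | gb =>
      obtain ⟨k, ih⟩ := ih
      simp only [mul_zero, add_zero] at ih
      rw [← G_st0_1] at ih
      subst ih
      simp only [prog, add_zero] at hx ⊢
      rcases hx with rfl | hx
      · exact ⟨k + 1, by ring⟩
      · exact J_ent ins hx ⟨k + 1, 0, rfl⟩
    | inc q =>
      obtain ⟨r, t, σ, h1, h2, h3⟩ := ih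
      simp only [mul_zero, add_zero] at h3
      rw [← G_inc] at h3
      subst h3
      simp only [prog, add_zero] at hx ⊢
      obtain ⟨r', t', h4, h5⟩ := hx
      rw [h1] at h4
      cases h4
      exact J_ent ins h5 (h2.next ins (by simp only [mstep, h1]))
    | jm q =>
      obtain ⟨t, σ, h1, h2, h3⟩ := ih
      simp only [add_zero] at h3
      subst h3
      simp only [prog, add_zero] at hx ⊢
      obtain ⟨t', h4, h5⟩ := hx
      rw [h1] at h4
      cases h4
      exact J_ent ins h5 (h2.next ins (by simp only [mstep, h1]))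
    | dv q j =>
      obtain ⟨r, t, t', σ, h1, h2, h3, h4⟩ := ih
      simp only [prog, add_zero] at hx ⊢
      obtain ⟨hj, r', u, u', h5, h6⟩ := hx
      rw [h1] at h5
      cases h5
      rw [hj, add_zero, add_zero] at h4
      have h7 := G_dvd σ r ⟨b, h4.symm⟩
      rw [G_dec σ r h7] at h4
      have h8 := Nat.eq_of_mul_eq_mul_left (pr_prime r).pos h4
      subst h8
      exact J_ent ins h6 (h2.next ins (by simp only [mstep, h1, h7, if_false]))
    | cp q j =>
      obtain ⟨r, t, t', σ, h1, h2, h3, h4⟩ := ih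
      simp only [prog, add_zero] at hx ⊢ h4
      obtain ⟨hj, r', u, u', h5, h6⟩ := hx
      rw [h1] at h5
      cases h5
      subst h4
      have h7 : σ r = 0 := by
        by_contra h0
        have := G_dec σ r h0
        rw [h3, this, Nat.mul_mod_right] at hj
        exact hj rfl
      exact J_ent ins h6 (h2.next ins (by simp only [mstep, h1, h7, if_true]))
    | f0 => exact absurd hx id
    | f1 => exact absurd hx id
    | dead => exact absurd hx id

/-- a pass of a state that never changes -/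
theorem pass {s : Q N L} (hs : (prog ins).dl s = s) {a b n : ℕ} (h : Rch (prog ins) s a b n) :
    Rch (prog ins) s 0 (b + (prog ins).kk s * a) n := by
  induction a generalizing b with
  | zero => simpa using h
  | succ a ih =>
    have h1 := Rch.read h
    rw [hs] at h1
    have h2 := ih h1
    convert h2 using 1
    ring

theorem pass_dv {q : Fin (L + 1)} {r : Fin (N + 3)} {t t' : Fin (L + 1)} (hq : ins q = .dec r t t')
    {j : Fin (bd N + 1)} (hj : (j : ℕ) < pr r) {a b n : ℕ} (h : Rch (prog ins) (.dv q j) a b n) :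
    ∃ j' : Fin (bd N + 1), (j' : ℕ) < pr r ∧ ∃ b', pr r * b' + j' = pr r * b + j + a ∧
      Rch (prog ins) (.dv q j') 0 b' n := by
  induction a generalizing b j with
  | zero => exact ⟨j, hj, b, rfl, h⟩
  | succ a ih =>
    have h1 := Rch.read h
    simp only [prog, rp_dec ins hq] at h1
    have h2 := nextj hj
    have h3 := (pr_prime r).pos
    obtain ⟨j', h4, b', h5, h6⟩ := ih (by rw [h2]; split_ifs <;> omega) h1
    refine ⟨j', h4, b', ?_, h6⟩
    rw [h5, h2]
    split_ifs with h7
    · rw [mul_add]; omega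
    · rw [add_zero]; omega

theorem pass_cp {q : Fin (L + 1)} {r : Fin (N + 3)} {t t' : Fin (L + 1)} (hq : ins q = .dec r t t')
    {j : Fin (bd N + 1)} {a b n : ℕ} (hj : (j : ℕ) = b % pr r)
    (h : Rch (prog ins) (.cp q j) a b n) :
    ∃ j' : Fin (bd N + 1), (j' : ℕ) = (b + a) % pr r ∧ Rch (prog ins) (.cp q j') 0 (b + a) n := by
  induction a generalizing b j with
  | zero => exact ⟨j, hj, h⟩
  | succ a ih =>
    have h1 := Rch.read h
    simp only [prog, rp_dec ins hq] at h1
    have hj' : (j : ℕ) < pr r := by rw [hj]; exact Nat.mod_lt _ (pr_prime r).pos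
    have h2 := nextj hj'
    obtain ⟨j', h4, h5⟩ := ih (by
      rw [h2, hj]
      have hp := (pr_prime r).one_lt
      rw [Nat.add_mod, Nat.mod_eq_of_lt hp]
      split_ifs with h5
      · rw [h5, Nat.mod_self]
      · rw [Nat.mod_eq_of_lt (show b % pr r + 1 < pr r by omega)]) h1
    have e : b + 1 + a = b + (a + 1) := by ring
    rw [e] at h4 h5
    exact ⟨j', h4, h5⟩

/-- all first passes of an instruction are reachable -/
def Ready (n : ℕ) (q : Fin (L + 1)) (σ : Fin (N + 3) → ℕ) : Prop :=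
  ∀ s, Ent ins q s → Rch (prog ins) s (G σ) 0 n

theorem ready_step {n : ℕ} {q : Fin (L + 1)} {σ : Fin (N + 3) → ℕ} (h : Ready ins n q σ) :
    Ready ins n (mstep ins (q, σ)).1 (mstep ins (q, σ)).2 := by
  intro s' hs'
  cases hq : ins q with
  | inc r t =>
    have h1 := h (.inc q) (Or.inl (by rw [hq]))
    have h2 := pass ins rfl h1
    simp only [prog, zero_add, rp_inc ins hq, ← G_inc] at h2
    simp only [mstep, hq] at hs' ⊢
    have h3 := Rch.test (P := prog ins) h2 (s' := s') ⟨r, t, hq, hs'⟩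
    exact h3
  | jmp t =>
    have h1 := h (.jm q) (Or.inl (by rw [hq]))
    have h2 := pass ins rfl h1
    simp only [prog, zero_add, one_mul] at h2
    simp only [mstep, hq] at hs' ⊢
    exact Rch.test (P := prog ins) h2 (s' := s') ⟨t, hq, hs'⟩
  | dec r t t' =>
    by_cases h0 : σ r = 0
    · have h1 := h (.cp q 0) (Or.inl (by rw [hq]; exact Or.inr rfl))
      obtain ⟨j', h4, h5⟩ := pass_cp ins hq (by simp) h1
      rw [zero_add] at h4 h5
      simp only [mstep, hq, h0, if_true] at hs' ⊢
      refine Rch.test (P := prog ins) h5 (s' := s') ⟨?_, r, t, t', hq, hs'⟩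
      rw [h4]
      intro h6
      exact G_dvd σ r (Nat.dvd_of_mod_eq_zero h6) h0
    · have h1 := h (.dv q 0) (Or.inl (by rw [hq]; exact Or.inl rfl))
      obtain ⟨j', h4, b', h5, h6⟩ := pass_dv ins hq (by simpa using (pr_prime r).pos) h1
      simp only [mstep, hq, h0, if_false] at hs' ⊢
      have e := G_dec σ r h0
      have hp := (pr_prime r).pos
      simp only [mul_zero, Fin.val_zero, zero_add] at h5
      rw [e] at h5
      have h7 : (j' : ℕ) = 0 := by
        have h8 : pr r ∣ (j' : ℕ) := by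
          have h9 : pr r ∣ pr r * b' + j' := by rw [h5]; exact Nat.dvd_mul_right _ _
          exact (Nat.dvd_add_right (Nat.dvd_mul_right _ _)).1 h9
        exact Nat.eq_zero_of_dvd_of_lt h8 h4
      rw [h7, add_zero] at h5
      have h8 := Nat.eq_of_mul_eq_mul_left hp h5
      subst h8
      exact Rch.test (P := prog ins) h6 (s' := s') ⟨h7, r, t, t', hq, hs'⟩

theorem ready_iter {n : ℕ} {q : Fin (L + 1)} {σ : Fin (N + 3) → ℕ} (h : Ready ins n q σ) (j : ℕ) :
    Ready ins n ((mstep ins)^[j] (q, σ)).1 ((mstep ins)^[j] (q, σ)).2 := by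
  induction j with
  | zero => exact h
  | succ j ih =>
    rw [iterate_succ_apply']
    exact ready_step ins ih

theorem ready_ga (n : ℕ) (s : Q N L) (hs : s = .ga ∨ s = .gb ∨ Ent ins 0 s) :
    Rch (prog ins) s (G (st0 (N + 3) n 0)) 0 n := by
  induction n generalizing s with
  | zero =>
    rw [G_st0_00]
    have h1 := pass ins (s := .st) rfl Rch.start
    have h2 : Rch (prog ins) .st 0 1 0 := by
      simpa [prog] using h1
    exact Rch.test (P := prog ins) h2 (s' := s) hs
  | succ n ih =>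
    have h1 := pass ins (s := .ga) rfl (ih .ga (Or.inl rfl))
    have h2 : Rch (prog ins) .ga 0 (G (st0 (N + 3) (n + 1) 0)) n := by
      rw [G_st0_0]
      convert h1 using 1
      simp only [prog, zero_add]
    exact Rch.test (P := prog ins) h2 (s' := s) hs

theorem ready_gb (n k : ℕ) (s : Q N L) (hs : s = .gb ∨ Ent ins 0 s) :
    Rch (prog ins) s (G (st0 (N + 3) n k)) 0 n := by
  induction k generalizing s with
  | zero => exact ready_ga ins n s (Or.inr hs)
  | succ k ih =>
    have h1 := pass ins (s := .gb) rfl (ih .gb (Or.inl rfl))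
    have h2 : Rch (prog ins) .gb 0 (G (st0 (N + 3) n (k + 1))) n := by
      rw [G_st0_1]
      convert h1 using 1
      simp only [prog, zero_add]
    exact Rch.test (P := prog ins) h2 (s' := s) hs

end

/-- Every recursively enumerable set of numbers is generated by two hands. -/
theorem exists_reader (S' : Set ℕ) (hS : REPred fun n => n ∈ S') :
    ∃ (S : Type) (_ : Finite S) (P : Prog S),
      (∀ s b n, Rch P s 0 b n → P.acc s → n + P.out s ∈ S') ∧
      ∀ n ∈ S', ∃ s k, Rch P s 0 0 k ∧ P.acc s ∧ n = k + P.out s := by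
  obtain ⟨N, L, ins, _, hm⟩ := exists_machine S' hS
  refine ⟨Q N L, inferInstance, prog ins, ?_, ?_⟩
  · intro s b n h ha
    cases s with
    | f1 =>
      obtain ⟨σ, ⟨k, j, h1⟩, h2, h3⟩ := rch_J ins h
      have h4 := G_one (by rw [← h2])
      subst h4
      exact (hm n).2 ⟨k, j, h1⟩
    | _ => exact absurd ha id
  · intro n hn
    obtain ⟨k, j, h1⟩ := (hm n).1 hn
    have h2 : Ready ins n 0 (st0 (N + 3) n k) := fun s hs => ready_gb ins n k s (Or.inr hs)
    have h3 := ready_iter ins h2 j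
    rw [h1] at h3
    have h4 := h3 .f0 (Or.inr ⟨rfl, rfl⟩)
    simp only [G_zero] at h4
    have h5 := Rch.read (P := prog ins) h4
    exact ⟨.f1, n, h5, trivial, rfl⟩

end Pool.Agent.W806.PC
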